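import Pool.Agent.T9h16.Rand4.Struct
import Pool.Agent.T9h16.Rand.Bool

/-!
The refuter with one NOT gate which counts resolvents and closed walks.
-/

set_option autoImplicit false
set_option linter.unusedSectionVars false

namespace Pool.Agent.T9h16.Rand

open Finset
open scoped Classical
open Pool.Agent.LN (Circuit base comp_and comp_not comp_card true_mem_base false_mem_base)

/-- Concentration. -/
theorem pow_ge_quad (R : ℝ) (hR : 0 ≤ R) (L : ℕ) (hL : 2 ≤ L) :
    1 + L * (R - 1) + (R - 1) ^ 2 ≤ R ^ L := by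
  induction L, hL using Nat.le_induction with
  | base =>
    push_cast
    apply le_of_eq
    ring
  | succ L hL ih =>
    have h1 := mul_le_mul_of_nonneg_left ih hR
    have h2 : (2 : ℝ) ≤ L := by exact_mod_cast hL
    have h3 : 0 ≤ (R - 1) ^ 2 * (L + (R - 1)) := mul_nonneg (sq_nonneg _) (by linarith)
    have h4 : R * (1 + L * (R - 1) + (R - 1) ^ 2) = 1 + ((L : ℝ) + 1) * (R - 1) + (R - 1) ^ 2 +
        (R - 1) ^ 2 * (L + (R - 1)) := by ring
    rw [pow_succ' R L]
    push_cast
    linarith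

theorem conc {Ω : Type} [Fintype Ω] (e w : Ω → ℝ) (L : ℕ) (hL : 2 ≤ L) (lam T κ η₁ η₂ : ℝ)
    (hlam : 0 < lam) (hT : 0 < T) (hκ : 0 < κ) (hκ1 : κ ≤ 1) (he0 : ∀ ω, 0 ≤ e ω)
    (hpt : ∀ ω, (e ω / lam) ^ L ≤ w ω / T)
    (hw : ∑ ω, w ω ≤ Fintype.card Ω * (T * (1 + η₂)))
    (he : Fintype.card Ω * (lam * (1 - η₁)) ≤ ∑ ω, e ω) :
    ((univ.filter fun ω : Ω => ¬ ((1 - κ) * lam ≤ e ω ∧ w ω < (1 + (L + 1) * κ) * T)).card : ℝ) *
      κ ^ 2 ≤ Fintype.card Ω * (η₂ + L * η₁) := by
  set Y : Ω → ℝ := fun ω => w ω / T - 1 - L * (e ω / lam - 1) with hY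
  have hL0 : (0 : ℝ) ≤ L := Nat.cast_nonneg _
  have hYsq : ∀ ω, (e ω / lam - 1) ^ 2 ≤ Y ω := by
    intro ω
    have h1 := pow_ge_quad (e ω / lam) (div_nonneg (he0 ω) hlam.le) L hL
    have h2 := hpt ω
    simp only [hY]
    linarith
  have hY0 : ∀ ω, 0 ≤ Y ω := fun ω => (sq_nonneg _).trans (hYsq ω)
  have hsum : ∑ ω, Y ω ≤ Fintype.card Ω * (η₂ + L * η₁) := by
    have h1 : ∑ ω, Y ω = (∑ ω, w ω) / T - Fintype.card Ω - L * ((∑ ω, e ω) / lam -
        Fintype.card Ω) := by
      simp only [hY]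
      rw [sum_sub_distrib, sum_sub_distrib, ← sum_div, ← mul_sum, sum_sub_distrib, ← sum_div]
      simp only [sum_const, card_univ, nsmul_eq_mul, mul_one]
    have h2 : (∑ ω, w ω) / T ≤ Fintype.card Ω * (1 + η₂) := by
      rw [div_le_iff₀ hT]
      linarith
    have h3 : Fintype.card Ω * (1 - η₁) ≤ (∑ ω, e ω) / lam := by
      rw [le_div_iff₀ hlam]
      linarith
    have h4 := mul_le_mul_of_nonneg_left h3 hL0
    rw [h1]
    linarith
  have hbad : ∀ ω ∈ univ.filter fun ω : Ω =>
      ¬ ((1 - κ) * lam ≤ e ω ∧ w ω < (1 + (L + 1) * κ) * T), κ ^ 2 ≤ Y ω := by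
    intro ω hω
    rw [mem_filter] at hω
    by_contra hcon
    push Not at hcon
    apply hω.2
    have h1 := (hYsq ω).trans_lt hcon
    have h2 : |e ω / lam - 1| < κ := abs_lt_of_sq_lt_sq h1 hκ.le
    rw [abs_lt] at h2
    have h3 : (1 - κ) * lam ≤ e ω := by
      have : 1 - κ ≤ e ω / lam := by linarith
      rw [le_div_iff₀ hlam] at this
      exact this
    refine ⟨h3, ?_⟩
    have h4 : w ω / T = Y ω + 1 + L * (e ω / lam - 1) := by
      simp only [hY]
      ring
    have h5 : L * (e ω / lam - 1) ≤ L * κ := mul_le_mul_of_nonneg_left h2.2.le hL0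
    have h6 : κ ^ 2 ≤ κ := by nlinarith
    have h7 : w ω / T < 1 + (L + 1) * κ := by linarith
    rw [div_lt_iff₀ hT] at h7
    exact h7
  calc ((univ.filter fun ω : Ω =>
        ¬ ((1 - κ) * lam ≤ e ω ∧ w ω < (1 + (L + 1) * κ) * T)).card : ℝ) * κ ^ 2
      = ∑ _ω ∈ univ.filter fun ω : Ω =>
        ¬ ((1 - κ) * lam ≤ e ω ∧ w ω < (1 + (L + 1) * κ) * T), κ ^ 2 := by
        rw [sum_const, nsmul_eq_mul]
    _ ≤ ∑ ω ∈ univ.filter fun ω : Ω =>
        ¬ ((1 - κ) * lam ≤ e ω ∧ w ω < (1 + (L + 1) * κ) * T), Y ω := sum_le_sum hbad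
    _ ≤ ∑ ω, Y ω := sum_le_sum_of_subset_of_nonneg (filter_subset _ _) fun ω _ _ => hY0 ω
    _ ≤ _ := hsum

section
variable {n q r : ℕ} (ι : Fin q ⊕ (Fin q ⊕ Fin r) ↪ Fin n) {k : ℕ}

/-- The clause for two side literals and a pivot literal is in the input. -/
noncomputable def neB (s : Fin r → Bool) (a b ℓ : Fin q × Bool) (x : Clause n k → Bool) : Bool :=
  decide (NE ι s {c | x c = true} a b ℓ)

theorem neB_mem (s : Fin r → Bool) (a b ℓ : Fin q × Bool) :
    neB (k := k) ι s a b ℓ ∈ base (Clause n k) := by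
  by_cases h : ∃ c : Clause n k, c.lits = litset ι s (s(a, b), ℓ)
  · obtain ⟨c, hc⟩ := h
    refine Or.inl ⟨c, ?_⟩
    funext x
    unfold neB
    rw [Bool.eq_iff_iff, decide_eq_true_eq]
    constructor
    · intro hx
      exact ⟨c, hx, hc⟩
    · rintro ⟨c', hc', hj⟩
      rw [lits_injective (hc.trans hj.symm)]
      exact hc'
  · refine Or.inr (Or.inr ?_)
    rw [Set.mem_singleton_iff]
    funext x
    unfold neB
    rw [decide_eq_false_iff_not]
    rintro ⟨c, -, hc⟩
    exact h ⟨c, hc⟩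

/-- The index set of the edges. -/
abbrev EI (q : ℕ) : Type :=
  (((Fin q × Bool) × (Fin q × Bool)) × ((Fin q × Bool) × (Fin q × Bool))) × Fin q

/-- The index set of the closed walks. -/
abbrev WI (q l : ℕ) : Type :=
  (Fin (l + 1) → (Fin q × Bool) × (Fin q × Bool)) × (Fin (l + 1) → Fin q)

/-- One resolvent. -/
noncomputable def eB (s : Fin r → Bool) (p : EI q) (x : Clause n k → Bool) : Bool :=
  neB ι s p.1.1.1 p.1.2.1 (p.2, true) x && neB ι s p.1.1.2 p.1.2.2 (p.2, false) x

/-- One clause of a closed walk. -/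
noncomputable def cB (s : Fin r → Bool) {l : ℕ} (p : WI q l) (i : Fin (l + 1) × Bool)
    (x : Clause n k → Bool) : Bool :=
  if i.2 = true then neB ι s (p.1 i.1).1 (p.1 (i.1 + 1)).1 (p.2 i.1, true) x
    else neB ι s (p.1 i.1).2 (p.1 (i.1 + 1)).2 (p.2 i.1, false) x

/-- One closed walk. -/
noncomputable def wB (s : Fin r → Bool) {l : ℕ} (p : WI q l) (x : Clause n k → Bool) : Bool :=
  decide (Fintype.card (Fin (l + 1) × Bool) ≤
    ((univ : Finset (Fin (l + 1) × Bool)).filter fun i => cB ι s p i x = true).card)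

/-- Many resolvents. -/
noncomputable def gE (E₀ : ℕ) (s : Fin r → Bool) (x : Clause n k → Bool) : Bool :=
  decide (E₀ ≤ ((univ : Finset (EI q)).filter fun p => eB ι s p x = true).card)

/-- Many closed walks. -/
noncomputable def gW (l T₀ : ℕ) (s : Fin r → Bool) (x : Clause n k → Bool) : Bool :=
  decide (T₀ ≤ ((univ : Finset (WI q l)).filter fun p => wB ι s p x = true).card)

theorem comp_eB (s : Fin r → Bool) (p : EI q) :
    Pool.Agent.LN.Comp (base (Clause n k)) 1 0 {eB (k := k) ι s p} :=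
  comp_and (neB_mem ι s _ _ _) (neB_mem ι s _ _ _)

theorem cB_mem (s : Fin r → Bool) {l : ℕ} (p : WI q l) (i : Fin (l + 1) × Bool) :
    cB (k := k) ι s p i ∈ base (Clause n k) := by
  obtain ⟨i, b⟩ := i
  cases b
  · exact neB_mem ι s (p.1 i).2 (p.1 (i + 1)).2 (p.2 i, false)
  · exact neB_mem ι s (p.1 i).1 (p.1 (i + 1)).1 (p.2 i, true)

theorem comp_wB (s : Fin r → Bool) {l : ℕ} (p : WI q l) :
    Pool.Agent.LN.Comp (base (Clause n k)) (2 * (2 * (l + 1) + 1) ^ 2) 0
      {wB (k := k) ι s p} := by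
  have h := comp_card (X := Clause n k → Bool) (A := base (Clause n k)) true_mem_base
    false_mem_base (univ : Finset (Fin (l + 1) × Bool)) (fun i => cB (k := k) ι s p i)
    (fun i _ => cB_mem ι s p i) (Fintype.card (Fin (l + 1) × Bool))
  refine h.mono subset_rfl ?_ le_rfl subset_rfl
  rw [card_univ, Fintype.card_prod, Fintype.card_fin, Fintype.card_bool, mul_comm (l + 1) 2]

theorem comp_gE (E₀ : ℕ) (s : Fin r → Bool) :
    Pool.Agent.LN.Comp (base (Clause n k))
      (Fintype.card (EI q) + 2 * (Fintype.card (EI q) + 1) ^ 2) 0 {gE (k := k) ι E₀ s} := by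
  have h1 := Pool.Agent.LN.Comp.biUnion (univ : Finset (EI q)) fun p _ => comp_eB (k := k) ι s p
  rw [card_univ, mul_zero, mul_one] at h1
  have h2 := comp_card (X := Clause n k → Bool)
    (A := base (Clause n k) ∪ ⋃ p ∈ (univ : Finset (EI q)), {eB (k := k) ι s p})
    (Or.inl true_mem_base) (Or.inl false_mem_base) (univ : Finset (EI q))
    (fun p => eB (k := k) ι s p) (by
      intro p hp
      right
      simp only [Set.mem_iUnion, Set.mem_singleton_iff]
      exact ⟨p, hp, rfl⟩) E₀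
  rw [card_univ] at h2
  exact h1.trans' h2

theorem comp_gW (l T₀ : ℕ) (s : Fin r → Bool) :
    Pool.Agent.LN.Comp (base (Clause n k))
      (Fintype.card (WI q l) * (2 * (2 * (l + 1) + 1) ^ 2) +
        2 * (Fintype.card (WI q l) + 1) ^ 2) 0 {gW (k := k) ι l T₀ s} := by
  have h1 := Pool.Agent.LN.Comp.biUnion (univ : Finset (WI q l)) fun p _ =>
    comp_wB (k := k) ι s p
  rw [card_univ, mul_zero] at h1
  have h2 := comp_card (X := Clause n k → Bool)
    (A := base (Clause n k) ∪ ⋃ p ∈ (univ : Finset (WI q l)), {wB (k := k) ι s p})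
    (Or.inl true_mem_base) (Or.inl false_mem_base) (univ : Finset (WI q l))
    (fun p => wB (k := k) ι s p) (by
      intro p hp
      right
      simp only [Set.mem_iUnion, Set.mem_singleton_iff]
      exact ⟨p, hp, rfl⟩) T₀
  rw [card_univ] at h2
  exact h1.trans' h2

/-- Thresholds of the functions for all sign patterns. -/
theorem comp_patterns (g : (Fin r → Bool) → (Clause n k → Bool) → Bool) (c : ℕ)
    (hg : ∀ s, Pool.Agent.LN.Comp (base (Clause n k)) c 0 {g s}) (t : ℕ) :
    Pool.Agent.LN.Comp (base (Clause n k)) (2 ^ r * c + 2 * (2 ^ r + 1) ^ 2) 0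
      {fun x => decide (t ≤ ((univ : Finset (Fin r → Bool)).filter fun s => g s x = true).card)} := by
  have hcard : Fintype.card (Fin r → Bool) = 2 ^ r := by
    rw [Fintype.card_fun, Fintype.card_bool, Fintype.card_fin]
  have h1 := Pool.Agent.LN.Comp.biUnion (univ : Finset (Fin r → Bool)) fun s _ => hg s
  rw [card_univ, mul_zero, hcard] at h1
  have h2 := comp_card (X := Clause n k → Bool)
    (A := base (Clause n k) ∪ ⋃ s ∈ (univ : Finset (Fin r → Bool)), {g s})
    (Or.inl true_mem_base) (Or.inl false_mem_base) (univ : Finset (Fin r → Bool))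
    g (by
      intro p hp
      right
      simp only [Set.mem_iUnion, Set.mem_singleton_iff]
      exact ⟨p, hp, rfl⟩) t
  rw [card_univ, hcard] at h2
  exact h1.trans' h2

theorem exists_res_circuit (l E₀ T₀ : ℕ) : ∃ C : Circuit (Clause n k), C.nots ≤ 1 ∧
    C.size ≤ (2 ^ r * (Fintype.card (EI q) + 2 * (Fintype.card (EI q) + 1) ^ 2) +
      2 * (2 ^ r + 1) ^ 2) + (2 ^ r * (Fintype.card (WI q l) * (2 * (2 * (l + 1) + 1) ^ 2) +
        2 * (Fintype.card (WI q l) + 1) ^ 2) + 2 * (2 ^ r + 1) ^ 2 + 1) + 1 ∧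
    ∀ F : Set (Clause n k), Acc' C F ↔ ∀ s : Fin r → Bool, E₀ ≤ eN ι s F ∧ wN ι l s F < T₀ := by
  have h1 := comp_patterns (n := n) (k := k) (gE ι E₀) _ (comp_gE ι E₀)
    (Fintype.card (Fin r → Bool))
  have h2 := comp_patterns (n := n) (k := k) (gW ι l T₀) _ (comp_gW ι l T₀) 1
  have h3 := h2.trans' (comp_not (A := base (Clause n k) ∪ {fun x =>
    decide (1 ≤ ((univ : Finset (Fin r → Bool)).filter fun s => gW ι l T₀ s x = true).card)})
    (Or.inr rfl))
  obtain ⟨C, hC1, hC2, hC3⟩ := Pool.Agent.LN.exists_circuit (h1.and h3)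
  refine ⟨C, by omega, hC1, fun F => ?_⟩
  have heN : ∀ s, ((univ : Finset (EI q)).filter fun p =>
      eB ι s p (fun c => decide (c ∈ F)) = true).card = eN ι s F := by
    intro s
    unfold eN
    congr 1
    ext p
    simp only [mem_filter, mem_univ, true_and, eB, neB, Bool.and_eq_true, decide_eq_true_eq]
    rw [Set.ofPred_mem_eq]
  have hwN : ∀ s, ((univ : Finset (WI q l)).filter fun p =>
      wB ι s p (fun c => decide (c ∈ F)) = true).card = wN ι l s F := by
    intro s
    unfold wN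
    congr 1
    ext p
    simp only [mem_filter, mem_univ, true_and, wB, decide_eq_true_eq]
    constructor
    · intro h i
      have h4 : ((univ : Finset (Fin (l + 1) × Bool)).filter fun i =>
          cB ι s p i (fun c => decide (c ∈ F)) = true) = univ := by
        apply eq_of_subset_of_card_le (filter_subset _ _)
        rw [card_univ]
        exact h
      rw [filter_eq_self] at h4
      have h5 := h4 (i, true) (mem_univ _)
      have h6 := h4 (i, false) (mem_univ _)
      simp only [cB, neB, if_true, Bool.false_eq_true, if_false, decide_eq_true_eq] at h5 h6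
      rw [Set.ofPred_mem_eq] at h5 h6
      exact ⟨h5, h6⟩
    · intro h
      rw [filter_true_of_mem, card_univ]
      rintro ⟨i, b⟩ _
      cases b
      · simp only [cB, neB, Bool.false_eq_true, if_false, decide_eq_true_eq]
        rw [Set.ofPred_mem_eq]
        exact (h i).2
      · simp only [cB, neB, if_true, decide_eq_true_eq]
        rw [Set.ofPred_mem_eq]
        exact (h i).1
  have hall : (Fintype.card (Fin r → Bool) ≤ ((univ : Finset (Fin r → Bool)).filter fun s =>
      gE ι E₀ s (fun c => decide (c ∈ F)) = true).card) ↔ ∀ s, E₀ ≤ eN ι s F := by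
    constructor
    · intro h s
      have h4 : ((univ : Finset (Fin r → Bool)).filter fun s =>
          gE ι E₀ s (fun c => decide (c ∈ F)) = true) = univ := by
        apply eq_of_subset_of_card_le (filter_subset _ _)
        rw [card_univ]
        exact h
      rw [filter_eq_self] at h4
      have h5 := h4 s (mem_univ _)
      rw [gE, decide_eq_true_eq, heN] at h5
      exact h5
    · intro h
      rw [filter_true_of_mem, card_univ]
      intro s _
      rw [gE, decide_eq_true_eq, heN]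
      exact h s
  have hnone : ¬ (1 ≤ ((univ : Finset (Fin r → Bool)).filter fun s =>
      gW ι l T₀ s (fun c => decide (c ∈ F)) = true).card) ↔ ∀ s, wN ι l s F < T₀ := by
    constructor
    · intro h s
      by_contra hcon
      apply h
      rw [Nat.succ_le_iff, card_pos]
      refine ⟨s, ?_⟩
      rw [mem_filter]
      refine ⟨mem_univ _, ?_⟩
      rw [gW, decide_eq_true_eq, hwN]
      omega
    · intro h hcon
      rw [Nat.succ_le_iff, card_pos] at hcon
      obtain ⟨s, hs⟩ := hcon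
      rw [mem_filter, gW, decide_eq_true_eq, hwN] at hs
      have := h s
      omega
  unfold Acc'
  rw [hC3]
  simp only [Bool.and_eq_true, Bool.not_eq_true', decide_eq_true_eq, decide_eq_false_iff_not]
  rw [hall, hnone]
  constructor
  · rintro ⟨h4, h5⟩ s
    exact ⟨h4 s, h5 s⟩
  · intro h
    exact ⟨fun s => (h s).1, fun s => (h s).2⟩

end

end Pool.Agent.T9h16.Rand
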