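import Mathlib

/-!
Closed walks: expansion of the trace, the number of vertices and of steps.
-/

set_option autoImplicit false
set_option linter.unusedSectionVars false

namespace Pool.Agent.T9h16.Rand

open Finset
open scoped Classical

section trace
variable {Z : Type} [Fintype Z] [DecidableEq Z]

theorem pow_paths (B : Matrix Z Z ℝ) (l : ℕ) : ∀ z w, (B ^ l) z w =
    ∑ p : Fin (l + 1) → Z, if p 0 = z ∧ p (Fin.last l) = w then
      ∏ i : Fin l, B (p i.castSucc) (p i.succ) else 0 := by
  induction l with
  | zero =>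
    intro z w
    rw [pow_zero, Matrix.one_apply]
    rw [← (Equiv.funUnique (Fin 1) Z).symm.sum_comp]
    simp only [Finset.univ_eq_empty, Finset.prod_empty]
    by_cases h : z = w
    · subst h
      rw [if_pos rfl]
      rw [Finset.sum_eq_single z]
      · simp
      · intro b _ hb
        rw [if_neg]
        intro h
        exact hb h.1
      · intro h
        exact absurd (mem_univ z) h
    · rw [if_neg h]
      symm
      apply Finset.sum_eq_zero
      intro b _
      rw [if_neg]
      rintro ⟨h1, h2⟩
      apply h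
      rw [← h1, ← h2]
      rfl
  | succ l ih =>
    intro z w
    rw [pow_succ', Matrix.mul_apply]
    simp only [ih]
    have h1 : ∀ y : Z, B z y * (∑ p : Fin (l + 1) → Z, if p 0 = y ∧ p (Fin.last l) = w then
        ∏ i : Fin l, B (p i.castSucc) (p i.succ) else 0) =
        ∑ p : Fin (l + 1) → Z, if p 0 = y ∧ p (Fin.last l) = w then
          B z (p 0) * ∏ i : Fin l, B (p i.castSucc) (p i.succ) else 0 := by
      intro y
      rw [mul_sum]
      apply sum_congr rfl
      intro p _
      split_ifs with h
      · rw [h.1]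
      · rw [mul_zero]
    rw [sum_congr rfl fun y _ => h1 y, sum_comm]
    have h2 : ∀ p : Fin (l + 1) → Z, (∑ y : Z, if p 0 = y ∧ p (Fin.last l) = w then
          B z (p 0) * ∏ i : Fin l, B (p i.castSucc) (p i.succ) else 0) =
        if p (Fin.last l) = w then
          B z (p 0) * ∏ i : Fin l, B (p i.castSucc) (p i.succ) else 0 := by
      intro p
      rw [Finset.sum_eq_single (p 0)]
      · simp
      · intro y _ hy
        rw [if_neg]
        intro h
        exact hy h.1.symm
      · intro h
        exact absurd (mem_univ _) h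
    rw [sum_congr rfl fun p _ => h2 p]
    rw [← (Fin.consEquiv fun _ : Fin (l + 2) => Z).sum_comp, Fintype.sum_prod_type]
    rw [Finset.sum_eq_single z]
    · apply sum_congr rfl
      intro p _
      simp only [Fin.consEquiv_apply, Fin.cons_zero, true_and]
      have h3 : (Fin.cons z p : Fin (l + 2) → Z) (Fin.last (l + 1)) = p (Fin.last l) := by
        rw [← Fin.succ_last, Fin.cons_succ]
      rw [h3, Fin.prod_univ_succ]
      simp only [Fin.castSucc_zero, Fin.cons_zero, Fin.cons_succ]
      have h4 : ∀ i : Fin l, (Fin.cons z p : Fin (l + 2) → Z) i.succ.castSucc = p i.castSucc := by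
        intro i
        rw [← Fin.succ_castSucc, Fin.cons_succ]
      simp only [h4]
    · intro y _ hy
      apply Finset.sum_eq_zero
      intro p _
      rw [if_neg]
      intro h
      exact hy h.1
    · intro h
      exact absurd (mem_univ _) h

/-- The trace of a power is a sum over closed walks. -/
theorem trace_walks (B : Matrix Z Z ℝ) (l : ℕ) : (B ^ (l + 1)).trace =
    ∑ x : Fin (l + 1) → Z, ∏ i : Fin (l + 1), B (x i) (x (i + 1)) := by
  rw [pow_succ, Matrix.trace]
  simp only [Matrix.diag_apply, Matrix.mul_apply]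
  simp only [pow_paths B l, sum_mul]
  have h1 : ∀ z w (p : Fin (l + 1) → Z), (if p 0 = z ∧ p (Fin.last l) = w then
      ∏ i : Fin l, B (p i.castSucc) (p i.succ) else 0) * B w z =
      if w = p (Fin.last l) then (if z = p 0 then
        (∏ i : Fin l, B (p i.castSucc) (p i.succ)) * B w z else 0) else 0 := by
    intro z w p
    by_cases ha : z = p 0
    · by_cases hb : w = p (Fin.last l)
      · rw [if_pos ⟨ha.symm, hb.symm⟩, if_pos hb, if_pos ha]
      · rw [if_neg (fun h => hb h.2.symm), if_neg hb, zero_mul]
    · rw [if_neg (fun h => ha h.1.symm), if_neg ha, zero_mul]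
      split_ifs <;> rfl
  simp only [h1]
  rw [sum_congr rfl fun z _ => sum_comm]
  rw [sum_comm]
  apply sum_congr rfl
  intro p _
  rw [sum_congr rfl fun z _ => Finset.sum_ite_eq' univ _ _]
  simp only [mem_univ, if_true]
  rw [Finset.sum_ite_eq' univ]
  simp only [mem_univ, if_true]
  rw [Fin.prod_univ_castSucc]
  simp only [Fin.coeSucc_eq_succ, Fin.last_add_one]

theorem sq_walks {B : Matrix Z Z ℝ} (hB : B.IsSymm) (j l : ℕ) (hl : l + 1 = 2 * j) :
    ∑ z, ∑ w, (B ^ j) z w ^ 2 =
      ∑ x : Fin (l + 1) → Z, ∏ i : Fin (l + 1), B (x i) (x (i + 1)) := by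
  rw [← trace_walks, hl, two_mul, pow_add, Matrix.trace]
  simp only [Matrix.diag_apply, Matrix.mul_apply]
  apply sum_congr rfl
  intro z _
  apply sum_congr rfl
  intro w _
  have h1 := (hB.pow j).apply w z
  rw [sq, h1]

end trace

section steps
open Fin.NatCast Fin.CommRing
variable {Λ P : Type} [DecidableEq Λ] [DecidableEq P]

/-- A path has at most one vertex more than steps. -/
theorem path_card (p : ℕ → Λ) (c : ℕ → P) (t : ℕ) : ((range (t + 1)).image p).card ≤
    ((range t).image fun i => (s(p i, p (i + 1)), c i)).card + 1 := by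
  induction t with
  | zero => simp
  | succ t ih =>
    have e1 : (range (t + 1 + 1)).image p = insert (p (t + 1)) ((range (t + 1)).image p) := by
      rw [range_add_one (n := t + 1), image_insert]
    have e2 : ((range (t + 1)).image fun i => (s(p i, p (i + 1)), c i)) =
        insert (s(p t, p (t + 1)), c t) ((range t).image fun i => (s(p i, p (i + 1)), c i)) := by
      rw [range_add_one (n := t), image_insert]
    rw [e1, e2]
    by_cases h : p (t + 1) ∈ (range (t + 1)).image p
    · rw [insert_eq_self.2 h]
      refine ih.trans ?_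
      apply Nat.succ_le_succ
      exact card_le_card (subset_insert _ _)
    · rw [card_insert_of_notMem h]
      have h2 : (s(p t, p (t + 1)), c t) ∉ (range t).image fun i => (s(p i, p (i + 1)), c i) := by
        intro h3
        rw [mem_image] at h3
        obtain ⟨i, hi, h4⟩ := h3
        rw [mem_range] at hi
        rw [Prod.mk.injEq] at h4
        apply h
        have h5 : p (t + 1) ∈ s(p i, p (i + 1)) := by
          rw [h4.1]
          exact Sym2.mem_mk_right _ _
        rw [Sym2.mem_iff] at h5
        rw [mem_image]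
        rcases h5 with h5 | h5
        · exact ⟨i, by rw [mem_range]; omega, h5.symm⟩
        · exact ⟨i + 1, by rw [mem_range]; omega, h5.symm⟩
      rw [card_insert_of_notMem h2]
      omega

variable {l : ℕ}

/-- The steps of a closed walk. -/
def stp (x : Fin (l + 1) → Λ) (v : Fin (l + 1) → P) (i : Fin (l + 1)) : Sym2 Λ × P :=
  (s(x i, x (i + 1)), v i)

theorem rot_vertices (x : Fin (l + 1) → Λ) (i₀ : Fin (l + 1)) :
    (range (l + 1)).image (fun t : ℕ => x (i₀ + 1 + (t : Fin (l + 1)))) = univ.image x := by
  ext a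
  simp only [mem_image, mem_range, mem_univ, true_and]
  constructor
  · rintro ⟨t, -, rfl⟩
    exact ⟨_, rfl⟩
  · rintro ⟨y, rfl⟩
    refine ⟨(y - (i₀ + 1)).val, Fin.is_lt _, ?_⟩
    congr 1
    rw [Fin.cast_val_eq_self]
    exact add_sub_cancel _ _

theorem rot_steps (x : Fin (l + 1) → Λ) (v : Fin (l + 1) → P) (i₀ : Fin (l + 1)) (t : ℕ) :
    (s(x (i₀ + 1 + (t : Fin (l + 1))), x (i₀ + 1 + ((t + 1 : ℕ) : Fin (l + 1)))),
      v (i₀ + 1 + (t : Fin (l + 1)))) = stp x v (i₀ + 1 + (t : Fin (l + 1))) := by
  unfold stp
  have h : i₀ + 1 + ((t + 1 : ℕ) : Fin (l + 1)) = i₀ + 1 + (t : Fin (l + 1)) + 1 := by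
    push_cast
    ring
  rw [h]

theorem rot_ne (i₀ : Fin (l + 1)) (t : ℕ) (ht : t < l) :
    i₀ + 1 + (t : Fin (l + 1)) ≠ i₀ := by
  intro h
  have h1 : ((1 + t : ℕ) : Fin (l + 1)) = 0 := by
    have h2 : i₀ + (1 + (t : Fin (l + 1))) = i₀ + 0 := by
      rw [add_zero, ← add_assoc]
      exact h
    have h3 := add_left_cancel h2
    push_cast
    exact h3
  rw [Fin.natCast_eq_zero] at h1
  have := Nat.le_of_dvd (by omega) h1
  omega

/-- The number of vertices of a closed walk. -/
theorem cyc_card (x : Fin (l + 1) → Λ) (v : Fin (l + 1) → P) :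
    (univ.image x).card ≤ (univ.image (stp x v)).card + 1 := by
  have h := path_card (fun t : ℕ => x (0 + 1 + (t : Fin (l + 1))))
    (fun t : ℕ => v (0 + 1 + (t : Fin (l + 1)))) l
  rw [rot_vertices] at h
  refine h.trans (Nat.succ_le_succ (card_le_card ?_))
  intro s hs
  rw [mem_image] at hs
  obtain ⟨t, -, rfl⟩ := hs
  rw [rot_steps]
  exact mem_image_of_mem _ (mem_univ _)

/-- If some step occurs only once, there are at most as many vertices as steps. -/
theorem cyc_card_of_unique (x : Fin (l + 1) → Λ) (v : Fin (l + 1) → P) (i₀ : Fin (l + 1))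
    (h0 : ∀ i, i ≠ i₀ → stp x v i ≠ stp x v i₀) :
    (univ.image x).card ≤ (univ.image (stp x v)).card := by
  have h := path_card (fun t : ℕ => x (i₀ + 1 + (t : Fin (l + 1))))
    (fun t : ℕ => v (i₀ + 1 + (t : Fin (l + 1)))) l
  rw [rot_vertices] at h
  have hmem : stp x v i₀ ∈ univ.image (stp x v) := mem_image_of_mem _ (mem_univ _)
  have h2 : ((range l).image fun t : ℕ =>
      (s(x (i₀ + 1 + (t : Fin (l + 1))), x (i₀ + 1 + ((t + 1 : ℕ) : Fin (l + 1)))),
        v (i₀ + 1 + (t : Fin (l + 1))))).card ≤ ((univ.image (stp x v)).erase (stp x v i₀)).card := by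
    apply card_le_card
    intro s hs
    rw [mem_image] at hs
    obtain ⟨t, ht, rfl⟩ := hs
    rw [rot_steps, mem_erase]
    exact ⟨h0 _ (rot_ne i₀ t (mem_range.1 ht)), mem_image_of_mem _ (mem_univ _)⟩
  rw [card_erase_of_mem hmem] at h2
  have h3 : 0 < (univ.image (stp x v)).card := card_pos.2 ⟨_, hmem⟩
  exact h.trans (by
    have := h2
    omega)

theorem cyc_card' (x : Fin (l + 1) → Λ) (v : Fin (l + 1) → P)
    (h : l + 1 < 2 * (univ.image (stp x v)).card) :
    (univ.image x).card ≤ (univ.image (stp x v)).card := by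
  by_contra hcon
  have h1 : ∀ i₀ : Fin (l + 1), ∃ i, i ≠ i₀ ∧ stp x v i = stp x v i₀ := by
    intro i₀
    by_contra h2
    push Not at h2
    exact hcon (cyc_card_of_unique x v i₀ h2)
  have h3 := card_eq_sum_card_image (stp x v) (univ : Finset (Fin (l + 1)))
  rw [card_univ, Fintype.card_fin] at h3
  have h4 : (univ.image (stp x v)).card * 2 ≤ ∑ b ∈ univ.image (stp x v),
      ((univ : Finset (Fin (l + 1))).filter fun a => stp x v a = b).card := by
    rw [← smul_eq_mul]
    apply card_nsmul_le_sum
    intro b hb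
    rw [mem_image] at hb
    obtain ⟨i₀, -, rfl⟩ := hb
    obtain ⟨i, hi, hs⟩ := h1 i₀
    have h5 : ({i, i₀} : Finset (Fin (l + 1))) ⊆
        (univ : Finset (Fin (l + 1))).filter fun a => stp x v a = stp x v i₀ := by
      intro a ha
      rw [mem_insert, mem_singleton] at ha
      rw [mem_filter]
      rcases ha with rfl | rfl
      · exact ⟨mem_univ _, hs⟩
      · exact ⟨mem_univ _, rfl⟩
    have h6 := card_le_card h5
    rwa [card_pair hi] at h6
  omega

/-- There are at least as many steps as pivots. -/
theorem pivots_le (x : Fin (l + 1) → Λ) (v : Fin (l + 1) → P) :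
    (univ.image v).card ≤ (univ.image (stp x v)).card := by
  have h1 : univ.image v = (univ.image (stp x v)).image Prod.snd := by
    rw [image_image]
    rfl
  rw [h1]
  exact card_image_le

end steps

section count
variable {Λ I : Type} [Fintype Λ] [Fintype I] [Nonempty I] [DecidableEq Λ] [DecidableEq I]

/-- The number of functions with small image. -/
theorem card_small_image (d : ℕ) : (univ.filter fun x : I → Λ => (univ.image x).card ≤ d).card ≤
    Fintype.card Λ ^ d * d ^ Fintype.card I := by
  have h0 : (univ.filter fun x : I → Λ => (univ.image x).card ≤ d).card ≤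
      (univ : Finset ((Fin d → Λ) × (I → Fin d))).card := by
    apply card_le_card_of_surjOn (fun p => fun i => p.1 (p.2 i))
    intro x hx
    rw [mem_coe, mem_filter] at hx
    obtain ⟨e⟩ : Nonempty ((univ.image x : Finset Λ) ↪ Fin d) :=
      Function.Embedding.nonempty_of_card_le (by
        rw [Fintype.card_coe, Fintype.card_fin]
        exact hx.2)
    obtain ⟨i₀⟩ : Nonempty I := inferInstance
    have hne : Nonempty (univ.image x : Finset Λ) := ⟨⟨x i₀, mem_image_of_mem _ (mem_univ _)⟩⟩
    refine ⟨(fun i => (Function.invFun e i).1,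
      fun i => e ⟨x i, mem_image_of_mem _ (mem_univ i)⟩), mem_coe.2 (mem_univ _), ?_⟩
    funext i
    simp only
    rw [Function.leftInverse_invFun e.injective]
  rw [card_univ, Fintype.card_prod, Fintype.card_fun, Fintype.card_fun, Fintype.card_fin] at h0
  exact h0

theorem sum_inv_image (hΛ : 0 < Fintype.card Λ) :
    ∑ x : I → Λ, (1 / (Fintype.card Λ : ℝ)) ^ (univ.image x).card ≤
      (Fintype.card I : ℝ) ^ (Fintype.card I + 1) := by
  have hN : (0 : ℝ) < Fintype.card Λ := by exact_mod_cast hΛ
  have hmaps : ∀ x ∈ (univ : Finset (I → Λ)),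
      (univ.image x).card - 1 ∈ range (Fintype.card I) := by
    intro x _
    rw [mem_range]
    have h1 : (univ.image x).card ≤ Fintype.card I := card_image_le.trans (by rw [card_univ])
    have h2 : 0 < Fintype.card I := Fintype.card_pos
    omega
  rw [← sum_fiberwise_of_maps_to hmaps]
  have h1 : ∀ d ∈ range (Fintype.card I),
      (∑ x ∈ (univ : Finset (I → Λ)).filter fun x => (univ.image x).card - 1 = d,
        (1 / (Fintype.card Λ : ℝ)) ^ (univ.image x).card) ≤
        (Fintype.card I : ℝ) ^ Fintype.card I := by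
    intro d hd
    rw [mem_range] at hd
    have h2 : ∀ x ∈ (univ : Finset (I → Λ)).filter (fun x => (univ.image x).card - 1 = d),
        (1 / (Fintype.card Λ : ℝ)) ^ (univ.image x).card =
          (1 / (Fintype.card Λ : ℝ)) ^ (d + 1) := by
      intro x hx
      rw [mem_filter] at hx
      have h3 : 0 < (univ.image x).card := by
        rw [card_pos]
        obtain ⟨i₀⟩ : Nonempty I := inferInstance
        exact ⟨x i₀, mem_image_of_mem _ (mem_univ _)⟩
      congr 1
      omega
    rw [sum_congr rfl h2, sum_const, nsmul_eq_mul]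
    have h4 : ((univ : Finset (I → Λ)).filter fun x => (univ.image x).card - 1 = d).card ≤
        Fintype.card Λ ^ (d + 1) * (d + 1) ^ Fintype.card I := by
      refine le_trans (card_le_card ?_) (card_small_image (Λ := Λ) (I := I) (d + 1))
      intro x hx
      rw [mem_filter] at hx ⊢
      exact ⟨hx.1, by omega⟩
    have h5 : (((univ : Finset (I → Λ)).filter fun x => (univ.image x).card - 1 = d).card : ℝ) ≤
        (Fintype.card Λ : ℝ) ^ (d + 1) * ((d + 1 : ℕ) : ℝ) ^ Fintype.card I := by
      exact_mod_cast h4
    calc (((univ : Finset (I → Λ)).filter fun x => (univ.image x).card - 1 = d).card : ℝ) *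
        (1 / (Fintype.card Λ : ℝ)) ^ (d + 1)
        ≤ ((Fintype.card Λ : ℝ) ^ (d + 1) * ((d + 1 : ℕ) : ℝ) ^ Fintype.card I) *
          (1 / (Fintype.card Λ : ℝ)) ^ (d + 1) :=
          mul_le_mul_of_nonneg_right h5 (by positivity)
      _ = ((d + 1 : ℕ) : ℝ) ^ Fintype.card I := by
          rw [one_div, inv_pow]
          field_simp
      _ ≤ (Fintype.card I : ℝ) ^ Fintype.card I := by
          apply pow_le_pow_left₀ (by positivity)
          exact_mod_cast hd
  refine (sum_le_sum h1).trans (le_of_eq ?_)
  rw [sum_const, card_range, nsmul_eq_mul, pow_succ]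
  ring

end count

end Pool.Agent.T9h16.Rand
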