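import Pool.Agent.T9h16.Rand4.Prob
import Pool.Agent.T9h16.Rand2.Subset

/-!
The expected number of edges.
-/

set_option autoImplicit false
set_option linter.unusedSectionVars false

namespace Pool.Agent.T9h16.Rand

open Finset
open scoped Classical

section
variable {E : Type} [Fintype E]

/-- The number of sets with `m` elements which contain two given elements. -/
theorem pair_Sub (m : ℕ) (hm : 2 ≤ m) (hmE : m ≤ Fintype.card E) (c c' : E) (hc : c ≠ c') :
    Fintype.card (Sub E m) * (m * (m - 1)) ≤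
      (univ.filter fun ω : Sub E m => c ∈ ω.1 ∧ c' ∈ ω.1).card *
        (Fintype.card E * (Fintype.card E - 1)) := by
  have hcount : (Fintype.card E - 2).choose (m - 2) ≤
      (univ.filter fun ω : Sub E m => c ∈ ω.1 ∧ c' ∈ ω.1).card := by
    have h2 : (powersetCard (m - 2) (univ \ {c, c'} : Finset E)).card =
        (Fintype.card E - 2).choose (m - 2) := by
      rw [card_powersetCard, card_sdiff_of_subset (subset_univ _), card_univ, card_pair hc]
    rw [← h2]
    have hdis : ∀ G ∈ powersetCard (m - 2) (univ \ {c, c'} : Finset E),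
        Disjoint G ({c, c'} : Finset E) := by
      intro G hG
      rw [mem_powersetCard] at hG
      rw [disjoint_left]
      intro e he heR
      exact (mem_sdiff.1 (hG.1 he)).2 heR
    have hcard : ∀ G ∈ powersetCard (m - 2) (univ \ {c, c'} : Finset E),
        (G ∪ {c, c'}).card = m := by
      intro G hG
      rw [card_union_of_disjoint (hdis G hG), (mem_powersetCard.1 hG).2, card_pair hc]
      omega
    apply card_le_card_of_injOn (fun G => if h : (G ∪ {c, c'}).card = m then
      (⟨G ∪ {c, c'}, h⟩ : Sub E m) else ⟨(exists_subset_card_eq (s := (univ : Finset E))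
        (by rw [card_univ]; exact hmE)).choose,
        (exists_subset_card_eq (s := (univ : Finset E)) (by rw [card_univ]; exact hmE)).choose_spec.2⟩)
    · intro G hG
      have h3 := hcard G (mem_coe.1 hG)
      simp only [h3, dite_true]
      rw [mem_coe, mem_filter]
      refine ⟨mem_univ _, ?_, ?_⟩
      · exact mem_union_right _ (mem_insert_self _ _)
      · exact mem_union_right _ (mem_insert_of_mem (mem_singleton_self _))
    · intro G hG G' hG' h
      have h3 := hcard G (mem_coe.1 hG)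
      have h4 := hcard G' (mem_coe.1 hG')
      simp only [h3, h4, dite_true, Subtype.mk.injEq] at h
      have h5 : (G ∪ {c, c'}) \ {c, c'} = G := by
        rw [union_sdiff_right]
        exact sdiff_eq_self_of_disjoint (hdis G (mem_coe.1 hG))
      have h6 : (G' ∪ {c, c'}) \ {c, c'} = G' := by
        rw [union_sdiff_right]
        exact sdiff_eq_self_of_disjoint (hdis G' (mem_coe.1 hG'))
      rw [← h5, ← h6, h]
  rw [card_Sub]
  have hchoose : (Fintype.card E).choose m * (m * (m - 1)) =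
      (Fintype.card E - 2).choose (m - 2) * (Fintype.card E * (Fintype.card E - 1)) := by
    obtain ⟨M, hM⟩ : ∃ M, Fintype.card E = M + 2 := ⟨Fintype.card E - 2, by omega⟩
    obtain ⟨m', hm'⟩ : ∃ m', m = m' + 2 := ⟨m - 2, by omega⟩
    rw [hM, hm']
    have h1 := Nat.add_one_mul_choose_eq (M + 1) (m' + 1)
    have h2 := Nat.add_one_mul_choose_eq M m'
    simp only [Nat.add_sub_cancel, show M + 2 - 1 = M + 1 by omega,
      show m' + 2 - 1 = m' + 1 by omega]
    calc (M + 2).choose (m' + 2) * ((m' + 2) * (m' + 1))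
        = ((M + 2).choose (m' + 2) * (m' + 2)) * (m' + 1) := by ring
      _ = ((M + 2) * (M + 1).choose (m' + 1)) * (m' + 1) := by rw [h1]
      _ = (M + 2) * ((M + 1).choose (m' + 1) * (m' + 1)) := by ring
      _ = (M + 2) * ((M + 1) * M.choose m') := by rw [h2]
      _ = _ := by ring
  rw [hchoose]
  exact Nat.mul_le_mul_right _ hcount

end

section
variable {n q r k : ℕ} (ι : Fin q ⊕ (Fin q ⊕ Fin r) ↪ Fin n)

/-- The clause for two side literals on different variables and a pivot literal. -/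
theorem exists_clause (hk : k = r + 3) (s : Fin r → Bool) (a b ℓ : Fin q × Bool)
    (hab : a.1 ≠ b.1) : ∃ c : Clause n k, c.lits = litset ι s (s(a, b), ℓ) := by
  have hset : litset ι s (s(a, b), ℓ) = insert (qlit ι a) (insert (qlit ι b)
      (insert (plit ι ℓ) (univ.image (rlit ι s)))) := by
    ext l
    rw [mem_litset]
    simp only [mem_insert, mem_image, mem_univ, true_and, Sym2.mem_iff]
    constructor
    · rintro (⟨d, rfl | rfl, rfl⟩ | h | ⟨i, h⟩)
      · exact Or.inl rfl
      · exact Or.inr (Or.inl rfl)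
      · exact Or.inr (Or.inr (Or.inl h))
      · exact Or.inr (Or.inr (Or.inr ⟨i, h.symm⟩))
    · rintro (h | h | h | ⟨i, h⟩)
      · exact Or.inl ⟨a, Or.inl rfl, h⟩
      · exact Or.inl ⟨b, Or.inr rfl, h⟩
      · exact Or.inr (Or.inl h)
      · exact Or.inr (Or.inr ⟨i, h.symm⟩)
  have hrinj : Function.Injective (rlit ι s) := by
    intro i i' h
    unfold rlit at h
    rw [Prod.mk.injEq] at h
    exact Sum.inr.inj (Sum.inr.inj (ι.injective h.1))
  have hcard : (litset ι s (s(a, b), ℓ)).card = k := by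
    rw [hset, card_insert_of_notMem, card_insert_of_notMem, card_insert_of_notMem,
      card_image_of_injective _ hrinj, card_univ, Fintype.card_fin, hk]
    · rw [mem_image]
      rintro ⟨i, -, h⟩
      exact plit_ne_rlit ι h.symm
    · rw [mem_insert, mem_image]
      rintro (h | ⟨i, -, h⟩)
      · exact qlit_ne_plit ι h
      · exact qlit_ne_rlit ι h.symm
    · rw [mem_insert, mem_insert, mem_image]
      rintro (h | h | ⟨i, -, h⟩)
      · exact hab (congrArg Prod.fst (qlit_inj ι h))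
      · exact qlit_ne_plit ι h
      · exact qlit_ne_rlit ι h.symm
  refine ⟨⟨litset ι s (s(a, b), ℓ), hcard, ?_⟩, rfl⟩
  -- different literals have different variables
  have key : ∀ l ∈ litset ι s (s(a, b), ℓ),
      (l.1 = ι (Sum.inr (Sum.inl a.1)) ∧ l = qlit ι a) ∨
      (l.1 = ι (Sum.inr (Sum.inl b.1)) ∧ l = qlit ι b) ∨
      (l.1 = ι (Sum.inl ℓ.1) ∧ l = plit ι ℓ) ∨
      ∃ i, l.1 = ι (Sum.inr (Sum.inr i)) ∧ l = rlit ι s i := by
    intro l hl
    rw [hset] at hl
    simp only [mem_insert, mem_image, mem_univ, true_and] at hl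
    rcases hl with rfl | rfl | rfl | ⟨i, rfl⟩
    · exact Or.inl ⟨rfl, rfl⟩
    · exact Or.inr (Or.inl ⟨rfl, rfl⟩)
    · exact Or.inr (Or.inr (Or.inl ⟨rfl, rfl⟩))
    · exact Or.inr (Or.inr (Or.inr ⟨i, rfl, rfl⟩))
  intro l hl l' hl' h
  have hι : ∀ {x y}, ι x = ι y → x = y := fun h => ι.injective h
  rcases key l hl with ⟨h1, h2⟩ | ⟨h1, h2⟩ | ⟨h1, h2⟩ | ⟨i, h1, h2⟩ <;>
    rcases key l' hl' with ⟨h3, h4⟩ | ⟨h3, h4⟩ | ⟨h3, h4⟩ | ⟨i', h3, h4⟩
  · rw [h2, h4]
  · exfalso
    rw [h1, h3] at h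
    exact hab (Sum.inl.inj (Sum.inr.inj (hι h)))
  · exfalso
    rw [h1, h3] at h
    exact absurd (hι h) (by simp)
  · exfalso
    rw [h1, h3] at h
    exact absurd (hι h) (by simp)
  · exfalso
    rw [h1, h3] at h
    exact hab (Sum.inl.inj (Sum.inr.inj (hι h))).symm
  · rw [h2, h4]
  · exfalso
    rw [h1, h3] at h
    exact absurd (hι h) (by simp)
  · exfalso
    rw [h1, h3] at h
    exact absurd (hι h) (by simp)
  · exfalso
    rw [h1, h3] at h
    exact absurd (hι h) (by simp)
  · exfalso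
    rw [h1, h3] at h
    exact absurd (hι h) (by simp)
  · rw [h2, h4]
  · exfalso
    rw [h1, h3] at h
    exact absurd (hι h) (by simp)
  · exfalso
    rw [h1, h3] at h
    exact absurd (hι h) (by simp)
  · exfalso
    rw [h1, h3] at h
    exact absurd (hι h) (by simp)
  · exfalso
    rw [h1, h3] at h
    exact absurd (hι h) (by simp)
  · rw [h1, h3] at h
    have := Sum.inr.inj (Sum.inr.inj (hι h))
    rw [h2, h4, this]

theorem card_ne_pairs (q : ℕ) : 4 * q * (q - 1) ≤
    (univ.filter fun p : (Fin q × Bool) × (Fin q × Bool) => p.1.1 ≠ p.2.1).card := by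
  have h1 : (univ.filter fun p : (Fin q × Bool) × (Fin q × Bool) => p.1.1 = p.2.1).card ≤
      4 * q := by
    have h2 : (univ.filter fun p : (Fin q × Bool) × (Fin q × Bool) => p.1.1 = p.2.1).card ≤
        (univ : Finset ((Fin q × Bool) × Bool)).card := by
      apply card_le_card_of_injOn (fun p => (p.1, p.2.2))
      · intro p _
        exact mem_coe.2 (mem_univ _)
      · rintro ⟨⟨a, x⟩, b, y⟩ hp ⟨⟨a', x'⟩, b', y'⟩ hp' h
        rw [mem_coe, mem_filter] at hp hp'
        simp only [Prod.mk.injEq] at h hp hp' ⊢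
        obtain ⟨⟨h1, h2⟩, h3⟩ := h
        refine ⟨⟨h1, h2⟩, ?_, h3⟩
        rw [← hp.2, ← hp'.2, h1]
    rw [card_univ, Fintype.card_prod, Fintype.card_prod, Fintype.card_fin, Fintype.card_bool] at h2
    omega
  have h2 : (univ.filter fun p : (Fin q × Bool) × (Fin q × Bool) => p.1.1 = p.2.1).card +
      (univ.filter fun p : (Fin q × Bool) × (Fin q × Bool) => ¬ p.1.1 = p.2.1).card =
      4 * q * q := by
    rw [card_filter_add_card_filter_not, card_univ, Fintype.card_prod, Fintype.card_prod,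
      Fintype.card_fin, Fintype.card_bool]
    ring
  have h3 : 4 * q * (q - 1) + 4 * q = 4 * q * q := by
    rcases Nat.eq_zero_or_pos q with h0 | h0
    · rw [h0]
    · calc 4 * q * (q - 1) + 4 * q = 4 * q * (q - 1 + 1) := by ring
        _ = 4 * q * q := by rw [Nat.sub_add_cancel h0]
  have h4 : (univ.filter fun p : (Fin q × Bool) × (Fin q × Bool) => p.1.1 ≠ p.2.1).card =
      (univ.filter fun p : (Fin q × Bool) × (Fin q × Bool) => ¬ p.1.1 = p.2.1).card := rfl
  rw [h4]
  omega

/-- The expected number of edges. -/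
theorem sum_eN (hk : k = r + 3) (m : ℕ) (hm : 2 ≤ m) (hmE : m ≤ Fintype.card (Clause n k))
    (s : Fin r → Bool) :
    Fintype.card (Sub (Clause n k) m) * (m * (m - 1)) * (q * (4 * q * (q - 1)) ^ 2) ≤
      (∑ ω : Sub (Clause n k) m, eN ι s (ω.1 : Set (Clause n k))) *
        (Fintype.card (Clause n k) * (Fintype.card (Clause n k) - 1)) := by
  obtain ⟨M, hM⟩ : ∃ M, M = Fintype.card (Clause n k) * (Fintype.card (Clause n k) - 1) := ⟨_, rfl⟩
  obtain ⟨A, hA⟩ : ∃ A, A = Fintype.card (Sub (Clause n k) m) * (m * (m - 1)) := ⟨_, rfl⟩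
  rw [← hM, ← hA]
  have h1 : ∑ ω : Sub (Clause n k) m, eN ι s (ω.1 : Set (Clause n k)) =
      ∑ p : (((Fin q × Bool) × (Fin q × Bool)) × ((Fin q × Bool) × (Fin q × Bool))) × Fin q,
      (univ.filter fun ω : Sub (Clause n k) m =>
        NE ι s (ω.1 : Set (Clause n k)) p.1.1.1 p.1.2.1 (p.2, true) ∧
        NE ι s (ω.1 : Set (Clause n k)) p.1.1.2 p.1.2.2 (p.2, false)).card := by
    unfold eN
    simp only [card_filter]
    exact sum_comm
  rw [h1, sum_mul]
  -- the good pairs
  set Gd := (univ : Finset ((((Fin q × Bool) × (Fin q × Bool)) ×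
    ((Fin q × Bool) × (Fin q × Bool))) × Fin q)).filter fun p =>
      p.1.1.1.1 ≠ p.1.2.1.1 ∧ p.1.1.2.1 ≠ p.1.2.2.1 with hGd
  have hgood : ∀ p ∈ Gd, A ≤ (univ.filter fun ω : Sub (Clause n k) m =>
        NE ι s (ω.1 : Set (Clause n k)) p.1.1.1 p.1.2.1 (p.2, true) ∧
        NE ι s (ω.1 : Set (Clause n k)) p.1.1.2 p.1.2.2 (p.2, false)).card * M := by
    intro p hp
    rw [hGd, mem_filter] at hp
    obtain ⟨c, hc⟩ := exists_clause ι hk s p.1.1.1 p.1.2.1 (p.2, true) hp.2.1
    obtain ⟨c', hc'⟩ := exists_clause ι hk s p.1.1.2 p.1.2.2 (p.2, false) hp.2.2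
    have hne : c ≠ c' := by
      rintro rfl
      have h2 := litset_inj ι s (hc.symm.trans hc')
      simp only [Prod.mk.injEq] at h2
      exact Bool.noConfusion h2.2.2
    have h2 := pair_Sub m hm hmE c c' hne
    rw [← hA, ← hM] at h2
    refine h2.trans (Nat.mul_le_mul_right _ (card_le_card ?_))
    intro ω hω
    rw [mem_filter] at hω ⊢
    exact ⟨mem_univ _, ⟨c, mem_coe.2 hω.2.1, hc⟩, ⟨c', mem_coe.2 hω.2.2, hc'⟩⟩
  have hcardG : q * (4 * q * (q - 1)) ^ 2 ≤ Gd.card := by
    have h2 : ((univ.filter fun p : (Fin q × Bool) × (Fin q × Bool) => p.1.1 ≠ p.2.1) ×ˢ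
        (univ.filter fun p : (Fin q × Bool) × (Fin q × Bool) => p.1.1 ≠ p.2.1) ×ˢ
        (univ : Finset (Fin q))).card ≤ Gd.card := by
      apply card_le_card_of_injOn (fun t => (((t.1.1, t.2.1.1), (t.1.2, t.2.1.2)), t.2.2))
      · rintro ⟨⟨a, b⟩, ⟨a', b'⟩, v⟩ ht
        rw [mem_coe, mem_product, mem_product, mem_filter, mem_filter] at ht
        rw [mem_coe, hGd, mem_filter]
        exact ⟨mem_univ _, ht.1.2, ht.2.1.2⟩
      · rintro ⟨⟨a, b⟩, ⟨a', b'⟩, v⟩ _ ⟨⟨c, d⟩, ⟨c', d'⟩, w⟩ _ h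
        simp only [Prod.mk.injEq] at h
        obtain ⟨⟨⟨h1, h2⟩, h3, h4⟩, h5⟩ := h
        rw [h1, h2, h3, h4, h5]
    refine le_trans ?_ h2
    rw [card_product, card_product, card_univ, Fintype.card_fin]
    have h3 := card_ne_pairs q
    calc q * (4 * q * (q - 1)) ^ 2 = (4 * q * (q - 1)) * ((4 * q * (q - 1)) * q) := by ring
      _ ≤ _ := Nat.mul_le_mul h3 (Nat.mul_le_mul_right _ h3)
  calc A * (q * (4 * q * (q - 1)) ^ 2) ≤ A * Gd.card := Nat.mul_le_mul_left _ hcardG
    _ = ∑ _p ∈ Gd, A := by rw [sum_const, smul_eq_mul, mul_comm]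
    _ ≤ ∑ p ∈ Gd, (univ.filter fun ω : Sub (Clause n k) m =>
        NE ι s (ω.1 : Set (Clause n k)) p.1.1.1 p.1.2.1 (p.2, true) ∧
        NE ι s (ω.1 : Set (Clause n k)) p.1.1.2 p.1.2.2 (p.2, false)).card * M :=
        sum_le_sum hgood
    _ ≤ _ := sum_le_sum_of_subset_of_nonneg (subset_univ _) fun _ _ _ => Nat.zero_le _

end

end Pool.Agent.T9h16.Rand
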