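import Mathlib

/-!
Numerical estimates.
-/

set_option autoImplicit false

namespace Pool.Agent.T9h16.Rand

theorem num_pow {u : ℕ} (hu : 1 ≤ u) {a b : ℕ} (h : a ≤ b) : u ^ a ≤ u ^ b :=
  Nat.pow_le_pow_right hu h

/-- The constant `G` is large. -/
theorem numG {K k j D G r : ℕ} (hK : 100000000 ≤ K) (hk : 3 ≤ k) (hj : 1 ≤ j)
    (hr : r ≤ k) (hG : G = D * (K * (j + k)) ^ (K * (j + k))) :
    128 * 4 ^ k * (256 * j ^ 2 * 4096 ^ j * (2 * j) ^ (6 * j + 3) * (D * 2 ^ r)) ≤ G ∧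
    8 * (768 * j ^ 3 * 4096 ^ j * (D * 2 ^ r)) ≤ G ∧
    (1 ≤ D → 2 ^ k ≤ G ∧ 4 * j + 1 ≤ G ∧ 100000000 ≤ G ∧ 2 * k ≤ G) := by
  obtain ⟨u, hu⟩ : ∃ u, u = K * (j + k) := ⟨_, rfl⟩
  have hu1 : 100000000 * (j + k) ≤ u := by rw [hu]; exact Nat.mul_le_mul_right _ hK
  have hu0 : 1 ≤ u := by omega
  rw [← hu] at hG
  have h2r : 2 ^ r ≤ 2 ^ k := Nat.pow_le_pow_right (by norm_num) hr
  refine ⟨?_, ?_, ?_⟩
  · rw [hG]
    calc 128 * 4 ^ k * (256 * j ^ 2 * 4096 ^ j * (2 * j) ^ (6 * j + 3) * (D * 2 ^ r))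
        ≤ 128 * 4 ^ k * (256 * j ^ 2 * 4096 ^ j * (2 * j) ^ (6 * j + 3) * (D * 2 ^ k)) := by
          apply Nat.mul_le_mul_left
          apply Nat.mul_le_mul_left
          exact Nat.mul_le_mul_left _ h2r
      _ = D * ((32768 ^ 1 * (4 ^ k * 2 ^ k)) * (j ^ 2 * 4096 ^ j * (2 * j) ^ (6 * j + 3))) := by
          ring
      _ ≤ D * ((u ^ 1 * (u ^ k * u ^ k)) * (u ^ 2 * u ^ j * u ^ (6 * j + 3))) := by
          apply Nat.mul_le_mul_left
          apply Nat.mul_le_mul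
          · apply Nat.mul_le_mul (Nat.pow_le_pow_left (by omega) 1)
            exact Nat.mul_le_mul (Nat.pow_le_pow_left (by omega) _)
              (Nat.pow_le_pow_left (by omega) _)
          · apply Nat.mul_le_mul
            · exact Nat.mul_le_mul (Nat.pow_le_pow_left (by omega) _)
                (Nat.pow_le_pow_left (by omega) _)
            · exact Nat.pow_le_pow_left (by omega) _
      _ = D * u ^ (1 + (k + k) + (2 + j + (6 * j + 3))) := by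
          rw [pow_add u (1 + (k + k)), pow_add u 1, pow_add u k, pow_add u (2 + j), pow_add u 2]
      _ ≤ D * u ^ u := Nat.mul_le_mul_left _ (num_pow hu0 (by omega))
  · rw [hG]
    calc 8 * (768 * j ^ 3 * 4096 ^ j * (D * 2 ^ r))
        ≤ 8 * (768 * j ^ 3 * 4096 ^ j * (D * 2 ^ k)) := by
          apply Nat.mul_le_mul_left
          apply Nat.mul_le_mul_left
          exact Nat.mul_le_mul_left _ h2r
      _ = D * ((6144 ^ 1 * j ^ 3) * (4096 ^ j * 2 ^ k)) := by ring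
      _ ≤ D * ((u ^ 1 * u ^ 3) * (u ^ j * u ^ k)) := by
          apply Nat.mul_le_mul_left
          apply Nat.mul_le_mul
          · exact Nat.mul_le_mul (Nat.pow_le_pow_left (by omega) _)
              (Nat.pow_le_pow_left (by omega) _)
          · exact Nat.mul_le_mul (Nat.pow_le_pow_left (by omega) _)
              (Nat.pow_le_pow_left (by omega) _)
      _ = D * u ^ (1 + 3 + (j + k)) := by
          rw [pow_add u (1 + 3), pow_add u 1, pow_add u j]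
      _ ≤ D * u ^ u := Nat.mul_le_mul_left _ (num_pow hu0 (by omega))
  · intro hD
    have h1 : u ^ u ≤ G := by
      rw [hG]
      exact Nat.le_mul_of_pos_left _ hD
    have h2 : u ^ k ≤ u ^ u := num_pow hu0 (by omega)
    have h3 : 2 ^ k ≤ u ^ k := Nat.pow_le_pow_left (by omega) _
    have h4 : u ^ 1 ≤ u ^ u := num_pow hu0 (by omega)
    rw [pow_one] at h4
    refine ⟨by omega, by omega, by omega, by omega⟩

/-- The parameter `τ` is large. -/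
theorem numτ {k j q n m M G : ℕ} {A τ : ℝ} (hk : 3 ≤ k) (hj : 1 ≤ j) (hn0 : 0 < n)
    (hnq : n ≤ 8 * q) (hqn : 4 * q ≤ n) (hM0 : 0 < M) (hM : M ≤ (2 * n) ^ k)
    (hm : G ^ j * n ^ ((2 * k - 3) * j + 2) ≤ m ^ (2 * j)) (hA1 : 1 ≤ A)
    (hA : 128 * 4 ^ k * A ≤ G) (hτ : τ = 4 * (q : ℝ) ^ 3 * ((m : ℝ) / M) ^ 2) :
    A ≤ τ ∧ A * (4 * (q : ℝ) ^ 2) ≤ τ ^ j := by
  have hn : (0 : ℝ) < n := by exact_mod_cast hn0
  have hMR : (0 : ℝ) < M := by exact_mod_cast hM0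
  have hτ0 : 0 ≤ τ := by rw [hτ]; positivity
  have hA0 : 0 < A := by linarith
  -- the lower bound for `τ`
  have h1 : (m : ℝ) ^ 2 * (n : ℝ) ^ 3 ≤ τ * (128 * 4 ^ k * (n : ℝ) ^ (2 * k)) := by
    have hq3 : (n : ℝ) ^ 3 ≤ 512 * (q : ℝ) ^ 3 := by
      have h2 : (n : ℝ) ≤ 8 * q := by exact_mod_cast hnq
      calc (n : ℝ) ^ 3 ≤ (8 * q) ^ 3 := pow_le_pow_left₀ hn.le h2 3
        _ = _ := by ring
    have hM2 : (M : ℝ) ^ 2 ≤ 4 ^ k * (n : ℝ) ^ (2 * k) := by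
      have h2 : (M : ℝ) ≤ (2 * (n : ℝ)) ^ k := by exact_mod_cast hM
      calc (M : ℝ) ^ 2 ≤ ((2 * (n : ℝ)) ^ k) ^ 2 := pow_le_pow_left₀ hMR.le h2 2
        _ = 4 ^ k * (n : ℝ) ^ (2 * k) := by
            have e4 : (4 : ℝ) = 2 ^ 2 := by norm_num
            rw [e4, ← pow_mul, ← pow_mul, mul_comm k 2, mul_pow]
    have h3 : τ * (M : ℝ) ^ 2 = 4 * (q : ℝ) ^ 3 * (m : ℝ) ^ 2 := by
      rw [hτ]
      field_simp
    have h4 : (m : ℝ) ^ 2 * (n : ℝ) ^ 3 ≤ 128 * (τ * (M : ℝ) ^ 2) := by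
      rw [h3]
      have := mul_le_mul_of_nonneg_left hq3 (sq_nonneg (m : ℝ))
      linarith
    have h5 := mul_le_mul_of_nonneg_left hM2 hτ0
    calc (m : ℝ) ^ 2 * (n : ℝ) ^ 3 ≤ 128 * (τ * (M : ℝ) ^ 2) := h4
      _ ≤ 128 * (τ * (4 ^ k * (n : ℝ) ^ (2 * k))) := by linarith
      _ = _ := by ring
  have h2 := pow_le_pow_left₀ (by positivity) h1 j
  have hmR : (G : ℝ) ^ j * (n : ℝ) ^ ((2 * k - 3) * j + 2) ≤ (m : ℝ) ^ (2 * j) := by
    exact_mod_cast hm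
  have h3 : (A ^ j * (n : ℝ) ^ 2) * ((128 * 4 ^ k) ^ j * (n : ℝ) ^ (2 * k * j)) ≤
      τ ^ j * ((128 * 4 ^ k) ^ j * (n : ℝ) ^ (2 * k * j)) := by
    calc (A ^ j * (n : ℝ) ^ 2) * ((128 * 4 ^ k) ^ j * (n : ℝ) ^ (2 * k * j))
        = (128 * 4 ^ k * A) ^ j * (n : ℝ) ^ (2 * k * j + 2) := by
          rw [mul_pow (128 * 4 ^ k) A, pow_add]
          ring
      _ ≤ (G : ℝ) ^ j * (n : ℝ) ^ (2 * k * j + 2) := by
          apply mul_le_mul_of_nonneg_right _ (by positivity)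
          exact pow_le_pow_left₀ (by positivity) hA j
      _ = ((G : ℝ) ^ j * (n : ℝ) ^ ((2 * k - 3) * j + 2)) * (n : ℝ) ^ (3 * j) := by
          have h4 : (2 * k - 3) * j + 3 * j = 2 * k * j := by
            rw [← add_mul]
            have h5 : 2 * k - 3 + 3 = 2 * k := by omega
            rw [h5]
          have e : 2 * k * j + 2 = ((2 * k - 3) * j + 2) + 3 * j := by omega
          rw [e, pow_add _ ((2 * k - 3) * j + 2), mul_assoc]
      _ ≤ (m : ℝ) ^ (2 * j) * (n : ℝ) ^ (3 * j) := mul_le_mul_of_nonneg_right hmR (by positivity)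
      _ = ((m : ℝ) ^ 2 * (n : ℝ) ^ 3) ^ j := by rw [mul_pow, ← pow_mul, ← pow_mul]
      _ ≤ (τ * (128 * 4 ^ k * (n : ℝ) ^ (2 * k))) ^ j := h2
      _ = _ := by
          rw [mul_pow, mul_pow (128 * 4 ^ k) ((n : ℝ) ^ (2 * k)), ← pow_mul]
  have h4 : A ^ j * (n : ℝ) ^ 2 ≤ τ ^ j := le_of_mul_le_mul_right h3 (by positivity)
  have hn1 : (1 : ℝ) ≤ (n : ℝ) ^ 2 := by
    have : (1 : ℝ) ≤ n := by exact_mod_cast hn0
    exact one_le_pow₀ this
  refine ⟨?_, ?_⟩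
  · have h5 : A ^ j ≤ τ ^ j := by
      refine le_trans ?_ h4
      exact le_mul_of_one_le_right (by positivity) hn1
    exact le_of_pow_le_pow_left₀ (by omega) hτ0 h5
  · refine le_trans ?_ h4
    have h5 : A ≤ A ^ j := le_self_pow₀ hA1 (by omega)
    have h6 : 4 * (q : ℝ) ^ 2 ≤ (n : ℝ) ^ 2 := by
      have h7 : (4 * (q : ℝ)) ≤ n := by exact_mod_cast hqn
      have h8 := pow_le_pow_left₀ (by positivity) h7 2
      have h9 : (0 : ℝ) ≤ (q : ℝ) ^ 2 := by positivity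
      nlinarith
    exact mul_le_mul h5 h6 (by positivity) (by positivity)

/-- The error is small. -/
theorem numδ {j q m D r : ℕ} {A τ κ : ℝ} (hj : 1 ≤ j) (hD : 1 ≤ D) (hq : 0 < q) (hqm : q ≤ m)
    (hκ : κ = (1 / 64) ^ j / (8 * j))
    (hA : A = 256 * (j : ℝ) ^ 2 * 4096 ^ j * ((2 * j : ℕ) : ℝ) ^ (6 * j + 3) * (D * 2 ^ r))
    (hτ : A ≤ τ) (hτj : A * (4 * (q : ℝ) ^ 2) ≤ τ ^ j)
    (hq2 : 768 * j ^ 3 * 4096 ^ j * (D * 2 ^ r) ≤ q) :
    ((2 * j : ℕ) : ℝ) ^ (6 * j + 3) * (1 / τ + 4 * (q : ℝ) ^ 2 / τ ^ j) +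
      ((2 * j : ℕ) : ℝ) * (2 / q + 1 / m) ≤ κ ^ 2 / (D * 2 ^ r) := by
  have hj0 : (0 : ℝ) < j := by exact_mod_cast hj
  have hD0 : (0 : ℝ) < D := by exact_mod_cast hD
  have hq0 : (0 : ℝ) < q := by exact_mod_cast hq
  have hm0 : (0 : ℝ) < m := by exact_mod_cast (by omega : 0 < m)
  obtain ⟨B, hB⟩ : ∃ B : ℝ, B = ((2 * j : ℕ) : ℝ) ^ (6 * j + 3) := ⟨_, rfl⟩
  have hB0 : 0 < B := by
    rw [hB]
    have : (0 : ℝ) < ((2 * j : ℕ) : ℝ) := by exact_mod_cast (by omega : 0 < 2 * j)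
    positivity
  obtain ⟨Q, hQ⟩ : ∃ Q : ℝ, Q = (D : ℝ) * 2 ^ r := ⟨_, rfl⟩
  have hQ0 : 0 < Q := by rw [hQ]; positivity
  obtain ⟨W, hW⟩ : ∃ W : ℝ, W = (64 : ℝ) * (j : ℝ) ^ 2 * 4096 ^ j := ⟨_, rfl⟩
  have hW0 : 0 < W := by rw [hW]; positivity
  have hκW : κ ^ 2 = 1 / W := by
    rw [hκ, hW, div_pow, mul_pow, ← pow_mul, mul_comm j 2, pow_mul, one_div_pow (64 : ℝ) 2,
      one_div_pow]
    rw [div_div]
    congr 1
    norm_num
    ring
  have hA' : A = 4 * B * Q * W := by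
    rw [hA, ← hB, ← hQ, hW]
    ring
  have hA0 : 0 < A := by rw [hA']; positivity
  have hτ0 : 0 < τ := by linarith
  rw [← hB, ← hQ, hκW]
  have t1 : B * (1 / τ) ≤ 1 / W / Q / 4 := by
    rw [mul_one_div, div_div, div_div, div_le_div_iff₀ hτ0 (by positivity)]
    rw [hA'] at hτ
    linarith
  have t2 : B * (4 * (q : ℝ) ^ 2 / τ ^ j) ≤ 1 / W / Q / 4 := by
    have hτj0 : 0 < τ ^ j := by positivity
    rw [← mul_div_assoc, div_div, div_div, div_le_div_iff₀ hτj0 (by positivity)]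
    rw [hA'] at hτj
    linarith
  have t3 : ((2 * j : ℕ) : ℝ) * (2 / q + 1 / m) ≤ 1 / W / Q / 2 := by
    have h1 : (1 : ℝ) / m ≤ 1 / q := by
      apply one_div_le_one_div_of_le hq0
      exact_mod_cast hqm
    have h2 : (2 : ℝ) / q + 1 / m ≤ 3 / q := by
      have : (3 : ℝ) / q = 2 / q + 1 / q := by ring
      linarith
    have h3 : ((2 * j : ℕ) : ℝ) * (2 / q + 1 / m) ≤ (2 * (j : ℝ)) * (3 / q) := by
      push_cast
      exact mul_le_mul_of_nonneg_left h2 (by positivity)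
    refine h3.trans ?_
    have h4 : (768 : ℝ) * (j : ℝ) ^ 3 * 4096 ^ j * ((D : ℝ) * 2 ^ r) ≤ q := by
      exact_mod_cast hq2
    rw [← hQ] at h4
    have h5 : (2 * (j : ℝ)) * (3 / q) = 6 * j / q := by ring
    rw [h5, div_div, div_div, div_le_div_iff₀ hq0 (by positivity), hW]
    nlinarith
  have e1 : 1 / W / Q = 1 / W / Q / 4 + 1 / W / Q / 4 + 1 / W / Q / 2 := by ring
  rw [e1, mul_add]
  linarith

/-- The size of the circuit. -/
theorem num_size {K k j n r Ie Iw : ℕ} (hK : 100000000 ≤ K) (hj : 1 ≤ j) (hn : 100000000 ≤ n)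
    (hr : 2 ^ r ≤ n) (hjn : 4 * j + 1 ≤ n) (hIe : Ie ≤ n ^ 5) (hIw : Iw ≤ n ^ (6 * j)) :
    (2 ^ r * (Ie + 2 * (Ie + 1) ^ 2) + 2 * (2 ^ r + 1) ^ 2) + (2 ^ r * (Iw *
      (2 * (2 * (2 * j) + 1) ^ 2) + 2 * (Iw + 1) ^ 2) + 2 * (2 ^ r + 1) ^ 2 + 1) + 1 ≤
      (n + 1) ^ (K * (j + k)) := by
  obtain ⟨N, hN⟩ : ∃ N, N = n + 1 := ⟨_, rfl⟩
  have hN1 : 1 ≤ N := by omega
  have hIe1 : Ie + 1 ≤ N ^ 5 := by
    have h1 : n ^ 5 < N ^ 5 := Nat.pow_lt_pow_left (by omega) (by norm_num)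
    omega
  have hIw1 : Iw + 1 ≤ N ^ (6 * j) := by
    have h1 : n ^ (6 * j) < N ^ (6 * j) := Nat.pow_lt_pow_left (by omega) (by omega)
    omega
  have hr1 : 2 ^ r + 1 ≤ N := by omega
  have hj1 : 2 * (2 * j) + 1 ≤ N := by omega
  obtain ⟨X, hX⟩ : ∃ X, X = N ^ (12 * j + 11) := ⟨_, rfl⟩
  have hX1 : 1 ≤ X := by rw [hX]; exact Nat.one_le_pow _ _ hN1
  have pw : ∀ a, a ≤ 12 * j + 11 → N ^ a ≤ X := fun a ha => by
    rw [hX]
    exact num_pow hN1 ha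
  have a1 : 2 ^ r * (Ie + 2 * (Ie + 1) ^ 2) ≤ 3 * X := by
    calc 2 ^ r * (Ie + 2 * (Ie + 1) ^ 2) ≤ N * (N ^ 5 + 2 * (N ^ 5) ^ 2) := by
          apply Nat.mul_le_mul (by omega)
          apply Nat.add_le_add (by omega)
          exact Nat.mul_le_mul_left _ (Nat.pow_le_pow_left hIe1 2)
      _ = N ^ 6 + 2 * N ^ 11 := by ring
      _ ≤ X + 2 * X := Nat.add_le_add (pw _ (by omega)) (Nat.mul_le_mul_left _ (pw _ (by omega)))
      _ = 3 * X := by ring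
  have a2 : 2 * (2 ^ r + 1) ^ 2 ≤ 2 * X := by
    apply Nat.mul_le_mul_left
    exact (Nat.pow_le_pow_left hr1 2).trans (pw _ (by omega))
  have a3 : 2 ^ r * (Iw * (2 * (2 * (2 * j) + 1) ^ 2) + 2 * (Iw + 1) ^ 2) ≤ 4 * X := by
    calc 2 ^ r * (Iw * (2 * (2 * (2 * j) + 1) ^ 2) + 2 * (Iw + 1) ^ 2)
        ≤ N * (N ^ (6 * j) * (2 * N ^ 2) + 2 * (N ^ (6 * j)) ^ 2) := by
          apply Nat.mul_le_mul (by omega)
          apply Nat.add_le_add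
          · apply Nat.mul_le_mul (by omega)
            exact Nat.mul_le_mul_left _ (Nat.pow_le_pow_left hj1 2)
          · exact Nat.mul_le_mul_left _ (Nat.pow_le_pow_left hIw1 2)
      _ = 2 * N ^ (6 * j + 3) + 2 * N ^ (12 * j + 1) := by
          rw [← pow_mul, pow_add N (6 * j) 3, pow_add N (12 * j) 1,
            show 6 * j * 2 = 12 * j by ring]
          ring
      _ ≤ 2 * X + 2 * X := Nat.add_le_add (Nat.mul_le_mul_left _ (pw _ (by omega)))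
          (Nat.mul_le_mul_left _ (pw _ (by omega)))
      _ = 4 * X := by ring
  have hfin : 13 * X ≤ (n + 1) ^ (K * (j + k)) := by
    calc 13 * X ≤ N * N ^ (12 * j + 11) := Nat.mul_le_mul (by omega) (by rw [hX])
      _ = N ^ (12 * j + 12) := by rw [← pow_succ']
      _ ≤ N ^ (K * (j + k)) := by
          apply num_pow hN1
          have : 100000000 * (j + k) ≤ K * (j + k) := Nat.mul_le_mul_right _ hK
          omega
      _ = _ := by rw [hN]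
  omega

end Pool.Agent.T9h16.Rand
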