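import Pool.Agent.T9h16.Rand4.Edge
import Pool.Agent.T9h16.Rand4.Circ
import Pool.Agent.T9h16.Rand4.Num
import Pool.Agent.T9h16.Rand2.Facts3

/-!
A polynomial-size refuter for random `k`-SAT with one NOT gate, for all `k ≥ 3`.
-/

set_option autoImplicit false
set_option linter.unusedSectionVars false

namespace Pool.Agent.T9h16.Rand

open Finset
open scoped Classical
open Pool.Agent.LN (Circuit)

/-- The thresholds separate. -/
theorem gap_num (j : ℕ) (hj : 1 ≤ j) (κ g : ℝ) (hκ0 : 0 < κ) (hg : g = 8 * j * κ) (hg1 : g ≤ 1) :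
    1 + (((2 * j : ℕ) : ℝ) + 1) * κ ≤ (1 - κ) ^ (2 * j) * (1 + g) := by
  have hj0 : (1 : ℝ) ≤ j := by exact_mod_cast hj
  have h1 : 1 + ((2 * j : ℕ) : ℝ) * (-κ) ≤ (1 + -κ) ^ (2 * j) := by
    apply one_add_mul_le_pow
    nlinarith
  rw [← sub_eq_add_neg] at h1
  have hg0 : 0 ≤ g := by rw [hg]; positivity
  have h2 : (1 + ((2 * j : ℕ) : ℝ) * (-κ)) * (1 + g) ≤ (1 - κ) ^ (2 * j) * (1 + g) :=
    mul_le_mul_of_nonneg_right h1 (by linarith)
  refine le_trans ?_ h2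
  push_cast
  have h3 : 0 ≤ (j : ℝ) * κ * (1 - g) := mul_nonneg (by positivity) (by linarith)
  have h4 : 0 ≤ κ * (j - 1) := mul_nonneg hκ0.le (by linarith)
  have h5 : (1 + 2 * (j : ℝ) * (-κ)) * (1 + g) = 1 + g - 2 * j * κ - 2 * (j * κ * g) := by ring
  have h6 : (j : ℝ) * κ * (1 - g) = j * κ - j * κ * g := by ring
  rw [h5]
  have h7 : g = 8 * j * κ := hg
  have h8 : (j : ℝ) * κ * g ≤ j * κ := by linarith
  nlinarith

/-- The expected number of edges, in real numbers. -/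
theorem edge_num {q m M : ℕ} {Ω X τ : ℝ} (hq : 0 < q) (hm : 2 ≤ m) (hmM : m ≤ M) (hX : 0 ≤ X)
    (hΩ : 0 ≤ Ω) (hτ : τ = 4 * (q : ℝ) ^ 3 * ((m : ℝ) / M) ^ 2)
    (h : Ω * (m * (m - 1 : ℕ)) * (q * (4 * q * (q - 1 : ℕ)) ^ 2) ≤ X * (M * (M - 1 : ℕ))) :
    Ω * (4 * (q : ℝ) ^ 2 * τ * (1 - (2 / q + 1 / m))) ≤ X := by
  have hq0 : (0 : ℝ) < q := by exact_mod_cast hq
  have hm0 : (0 : ℝ) < m := by exact_mod_cast (by omega : 0 < m)
  have hM0 : (0 : ℝ) < M := by exact_mod_cast (by omega : 0 < M)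
  rw [Nat.cast_sub (by omega), Nat.cast_sub (by omega), Nat.cast_sub (by omega)] at h
  push_cast at h
  have hqR : (1 : ℝ) ≤ q := by exact_mod_cast hq
  have hmR : (1 : ℝ) ≤ m := by exact_mod_cast (by omega : 1 ≤ m)
  have h1 : X * (M * (M - 1)) ≤ X * (M : ℝ) ^ 2 := by
    apply mul_le_mul_of_nonneg_left _ hX
    nlinarith
  have h2 : (q : ℝ) ^ 2 * m - 2 * q * m - q ^ 2 ≤ (q - 1) ^ 2 * (m - 1) := by nlinarith
  have h3 : Ω * (4 * (q : ℝ) ^ 2 * τ * (1 - (2 / q + 1 / m))) * (M : ℝ) ^ 2 =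
      Ω * (16 * (q : ℝ) ^ 3 * m * ((q : ℝ) ^ 2 * m - 2 * q * m - q ^ 2)) := by
    rw [hτ]
    field_simp
    ring
  have h4 : Ω * (16 * (q : ℝ) ^ 3 * m * ((q : ℝ) ^ 2 * m - 2 * q * m - q ^ 2)) ≤
      Ω * (16 * (q : ℝ) ^ 3 * m * ((q - 1) ^ 2 * (m - 1))) := by
    apply mul_le_mul_of_nonneg_left _ hΩ
    exact mul_le_mul_of_nonneg_left h2 (by positivity)
  have h5 : Ω * (16 * (q : ℝ) ^ 3 * m * ((q - 1) ^ 2 * (m - 1))) =
      Ω * (m * (m - 1)) * (q * (4 * q * (q - 1)) ^ 2) := by ring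
  have h6 : Ω * (4 * (q : ℝ) ^ 2 * τ * (1 - (2 / q + 1 / m))) * (M : ℝ) ^ 2 ≤ X * (M : ℝ) ^ 2 := by
    rw [h3]
    refine h4.trans ?_
    rw [h5]
    exact h.trans h1
  exact le_of_mul_le_mul_right h6 (by positivity)

variable {n k m : ℕ}

/-- A refuter with one NOT gate. -/
theorem one_not4 {K j D G : ℕ} (hK : 100000000 ≤ K) (hk : 3 ≤ k) (hj : 1 ≤ j) (hD : 1 ≤ D)
    (hG : G = D * (K * (j + k)) ^ (K * (j + k))) (hn : G ≤ n) (hmn : k ^ k * m ≤ n ^ (k - 1))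
    (hm : G ^ j * n ^ ((2 * k - 3) * j + 2) ≤ m ^ (2 * j)) :
    ∃ C : Circuit (Clause n k), C.nots ≤ 1 ∧ C.size ≤ (n + 1) ^ (K * (j + k)) ∧
      (∀ F : Set (Clause n k), Satisfiable F → ¬ Acc' C F) ∧
      {F : Set (Clause n k) | F.ncard = m ∧ ¬ Acc' C F}.ncard * D ≤
        (Nat.card (Clause n k)).choose m := by
  obtain ⟨r, hr⟩ : ∃ r, k = r + 3 := ⟨k - 3, by omega⟩
  obtain ⟨q, hq⟩ : ∃ q, q = n / 4 := ⟨_, rfl⟩
  obtain ⟨l, hl⟩ : ∃ l, l + 1 = 2 * j := ⟨2 * j - 1, by omega⟩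
  obtain ⟨hG1, hG2, hG3⟩ := numG (r := r) hK hk hj (by omega) hG
  obtain ⟨hG4, hG5, hG6, hG7⟩ := hG3 hD
  have hqn : 4 * q ≤ n := by omega
  have hnq : n ≤ 8 * q := by omega
  have hq0 : 0 < q := by omega
  have hn0 : 0 < n := by omega
  have h2rk : 2 ^ r ≤ 2 ^ k := Nat.pow_le_pow_right (by norm_num) (by omega)
  -- the embedding
  obtain ⟨ι⟩ : Nonempty (Fin q ⊕ (Fin q ⊕ Fin r) ↪ Fin n) := by
    apply Function.Embedding.nonempty_of_card_le
    rw [Fintype.card_sum, Fintype.card_sum, Fintype.card_fin, Fintype.card_fin, Fintype.card_fin]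
    omega
  -- the parameters
  obtain ⟨M, hM⟩ : ∃ M, M = Fintype.card (Clause n k) := ⟨_, rfl⟩
  have hMle : M ≤ (2 * n) ^ k := by
    have := card_Cl_le (V := Fin n) (isCl (n := n) (k := k))
    rw [Fintype.card_fin] at this
    rw [hM]
    exact this
  have hMge : n ^ k ≤ k ^ k * M := by
    rw [hM]
    exact le_card_Cl (V := Fin n) isCl (by omega) (Fintype.card_fin n).symm (by omega)
  have hM0 : 0 < M := by
    rw [hM]
    exact card_pos_of (V := Fin n) isCl (by omega) (Fintype.card_fin n).symm (by omega)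
  have hkk0 : 0 < k ^ k := Nat.pow_pos (by omega)
  have h2qm : 2 * q * m ≤ M := by
    have h1 : k ^ k * (2 * q * m) ≤ k ^ k * M := by
      calc k ^ k * (2 * q * m) = 2 * q * (k ^ k * m) := by ring
        _ ≤ n * n ^ (k - 1) := Nat.mul_le_mul (by omega) hmn
        _ = n ^ k := by
            rw [← pow_succ']
            congr 1
            omega
        _ ≤ k ^ k * M := hMge
    exact Nat.le_of_mul_le_mul_left h1 hkk0
  have hmM : m ≤ M := le_trans (Nat.le_mul_of_pos_left m (by omega)) h2qm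
  have hnm : n ≤ m := by
    have h1 : n ^ (2 * j) ≤ m ^ (2 * j) := by
      refine le_trans ?_ hm
      calc n ^ (2 * j) ≤ n ^ ((2 * k - 3) * j + 2) := by
            apply Nat.pow_le_pow_right hn0
            have : 3 * j ≤ (2 * k - 3) * j := Nat.mul_le_mul_right _ (by omega)
            omega
        _ ≤ G ^ j * n ^ ((2 * k - 3) * j + 2) :=
            Nat.le_mul_of_pos_left _ (Nat.pow_pos (by omega))
    by_contra hcon
    push Not at hcon
    have := Nat.pow_lt_pow_left hcon (by omega : 2 * j ≠ 0)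
    omega
  have hMR : (0 : ℝ) < M := by exact_mod_cast hM0
  have hqR : (0 : ℝ) < q := by exact_mod_cast hq0
  have hmR : (0 : ℝ) < m := by exact_mod_cast (by omega : 0 < m)
  have hDR : (0 : ℝ) < D := by exact_mod_cast hD
  have hjR : (1 : ℝ) ≤ j := by exact_mod_cast hj
  obtain ⟨ρ, hρ⟩ : ∃ ρ : ℝ, ρ = (m : ℝ) / M := ⟨_, rfl⟩
  have hρ0 : 0 ≤ ρ := by rw [hρ]; positivity
  have hρ1 : ρ ≤ 1 := by
    rw [hρ, div_le_one hMR]
    exact_mod_cast hmM
  have hσ : 2 * (q : ℝ) * ρ ≤ 1 := by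
    rw [hρ, ← mul_div_assoc, div_le_one hMR]
    exact_mod_cast h2qm
  obtain ⟨τ, hτ⟩ : ∃ τ : ℝ, τ = 4 * (q : ℝ) ^ 3 * ρ ^ 2 := ⟨_, rfl⟩
  obtain ⟨A, hA⟩ : ∃ A : ℝ, A = 256 * (j : ℝ) ^ 2 * 4096 ^ j *
    ((2 * j : ℕ) : ℝ) ^ (6 * j + 3) * (D * 2 ^ r) := ⟨_, rfl⟩
  have hA1 : 1 ≤ A := by
    have h1 : 1 ≤ 256 * j ^ 2 * 4096 ^ j * (2 * j) ^ (6 * j + 3) * (D * 2 ^ r) := by
      apply Nat.succ_le_of_lt
      positivity
    rw [hA]
    exact_mod_cast h1
  have hAG : 128 * 4 ^ k * A ≤ G := by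
    rw [hA]
    exact_mod_cast hG1
  obtain ⟨hAτ, hAτj⟩ := numτ (k := k) (j := j) (q := q) (n := n) (m := m) (M := M) (G := G)
    (A := A) (τ := τ) hk hj hn0 hnq hqn hM0 hMle hm hA1 hAG (by rw [hτ, hρ])
  have hτ1 : 1 ≤ τ := hA1.trans hAτ
  have hτ0 : 0 < τ := by linarith
  obtain ⟨κ, hκ⟩ : ∃ κ : ℝ, κ = (1 / 64) ^ j / (8 * j) := ⟨_, rfl⟩
  have hg0 : (0 : ℝ) < (1 / 64) ^ j := by positivity
  have hg1 : ((1 : ℝ) / 64) ^ j ≤ 1 := pow_le_one₀ (by norm_num) (by norm_num)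
  have hκ0 : 0 < κ := by rw [hκ]; positivity
  have hgκ : ((1 : ℝ) / 64) ^ j = 8 * j * κ := by
    rw [hκ]
    field_simp
  have hκ1 : κ ≤ 1 := by nlinarith
  have hδ := numδ (j := j) (q := q) (m := m) (D := D) (r := r) (A := A) (τ := τ) (κ := κ) hj hD
    hq0 (by omega) hκ hA hAτ hAτj (by omega)
  obtain ⟨B, hB⟩ : ∃ B : ℝ, B = ((2 * j : ℕ) : ℝ) ^ (6 * j + 3) := ⟨_, rfl⟩
  rw [← hB] at hδ
  obtain ⟨η₂, hη₂⟩ : ∃ η : ℝ, η = B * (1 / τ + 4 * (q : ℝ) ^ 2 / τ ^ j) := ⟨_, rfl⟩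
  obtain ⟨η₁, hη₁⟩ : ∃ η : ℝ, η = 2 / (q : ℝ) + 1 / m := ⟨_, rfl⟩
  rw [← hη₂, ← hη₁] at hδ
  obtain ⟨lam, hlam⟩ : ∃ lam : ℝ, lam = 4 * (q : ℝ) ^ 2 * τ := ⟨_, rfl⟩
  obtain ⟨T, hT⟩ : ∃ T : ℝ, T = τ ^ (2 * j) := ⟨_, rfl⟩
  have hlam0 : 0 < lam := by rw [hlam]; positivity
  have hT0 : 0 < T := by rw [hT]; positivity
  -- the circuit
  obtain ⟨C, hC1, hC2, hC3⟩ := exists_res_circuit (n := n) (k := k) ι l ⌈(1 - κ) * lam⌉₊
    ⌈(1 + (((2 * j : ℕ) : ℝ) + 1) * κ) * T⌉₊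
  refine ⟨C, hC1, ?_, ?_, ?_⟩
  · -- the size
    have hEI : Fintype.card (EI q) ≤ n ^ 5 := by
      rw [Fintype.card_prod, Fintype.card_prod, Fintype.card_prod, Fintype.card_prod,
        Fintype.card_fin, Fintype.card_bool]
      calc q * 2 * (q * 2) * (q * 2 * (q * 2)) * q = 16 * q ^ 5 := by ring
        _ ≤ 1024 * q ^ 5 := Nat.mul_le_mul_right _ (by norm_num)
        _ = (4 * q) ^ 5 := by ring
        _ ≤ n ^ 5 := Nat.pow_le_pow_left hqn 5
    have hWI : Fintype.card (WI q l) ≤ n ^ (6 * j) := by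
      rw [Fintype.card_prod, Fintype.card_fun, Fintype.card_fun, Fintype.card_prod,
        Fintype.card_prod, Fintype.card_fin, Fintype.card_bool, Fintype.card_fin, hl]
      calc (q * 2 * (q * 2)) ^ (2 * j) * q ^ (2 * j) = (4 * q ^ 3) ^ (2 * j) := by
            rw [← mul_pow]
            congr 1
            ring
        _ ≤ (n ^ 3) ^ (2 * j) := by
            apply Nat.pow_le_pow_left
            calc 4 * q ^ 3 ≤ 64 * q ^ 3 := Nat.mul_le_mul_right _ (by norm_num)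
              _ = (4 * q) ^ 3 := by ring
              _ ≤ n ^ 3 := Nat.pow_le_pow_left hqn 3
        _ = n ^ (6 * j) := by
            rw [← pow_mul]
            congr 1
            ring
    refine hC2.trans ?_
    generalize Fintype.card (EI q) = Ie at hEI ⊢
    generalize Fintype.card (WI q l) = Iw at hWI ⊢
    rw [hl]
    exact num_size (k := k) (n := n) hK hj (by omega) (by omega) (by omega) hEI hWI
  · -- soundness
    intro F hF hacc
    rw [hC3] at hacc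
    obtain ⟨s, hs⟩ := wN_gap (n := n) ι hq0 j l hj hl F hF
    obtain ⟨h1, h2⟩ := hacc s
    rw [Nat.ceil_le] at h1
    rw [Nat.lt_ceil] at h2
    have h3 : (1 - κ) * τ ≤ (eN ι s F : ℝ) / (4 * (q : ℝ) ^ 2) := by
      rw [le_div_iff₀ (by positivity)]
      rw [hlam] at h1
      linarith
    have h4 := pow_le_pow_left₀ (mul_nonneg (by linarith) hτ0.le) h3 (2 * j)
    have h5 : ((1 - κ) * τ) ^ (2 * j) * (1 + (1 / 64) ^ j) ≤ wN ι l s F :=
      (mul_le_mul_of_nonneg_right h4 (by positivity)).trans hs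
    have h6 := gap_num j hj κ _ hκ0 hgκ hg1
    have h7 : (1 + (((2 * j : ℕ) : ℝ) + 1) * κ) * T ≤ ((1 - κ) * τ) ^ (2 * j) *
        (1 + (1 / 64) ^ j) := by
      rw [mul_pow, hT]
      have h8 := mul_le_mul_of_nonneg_right h6 (by positivity : (0 : ℝ) ≤ τ ^ (2 * j))
      linarith
    linarith
  · -- completeness
    have hMz : 0 < Fintype.card (Clause n k) := hM ▸ hM0
    have hfew := few_Sub (E := Clause n k) m (by rw [← hM]; exact hmM) hMz
    rw [← hM, ← hρ] at hfew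
    obtain ⟨Ωc, hΩc⟩ : ∃ Ωc, Ωc = Fintype.card (Sub (Clause n k) m) := ⟨_, rfl⟩
    have hbad : ∀ s : Fin r → Bool, ((univ.filter fun ω : Sub (Clause n k) m =>
        ¬ ((1 - κ) * lam ≤ (eN ι s (ω.1 : Set (Clause n k)) : ℝ) ∧
          (wN ι l s (ω.1 : Set (Clause n k)) : ℝ) <
            (1 + (((2 * j : ℕ) : ℝ) + 1) * κ) * T)).card : ℝ) * (D * 2 ^ r) ≤ Ωc := by
      intro s
      have hconc := conc (Ω := Sub (Clause n k) m)
        (fun ω => (eN ι s (ω.1 : Set (Clause n k)) : ℝ))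
        (fun ω => (wN ι l s (ω.1 : Set (Clause n k)) : ℝ)) (2 * j) (by omega) lam T κ η₁ η₂
        hlam0 hT0 hκ0 hκ1 (fun ω => Nat.cast_nonneg _) ?_ ?_ ?_
      · rw [← hΩc] at hconc
        have h1 : (Ωc : ℝ) * (η₂ + ((2 * j : ℕ) : ℝ) * η₁) ≤ Ωc * (κ ^ 2 / (D * 2 ^ r)) :=
          mul_le_mul_of_nonneg_left hδ (Nat.cast_nonneg _)
        have h2 := hconc.trans h1
        have h3 : (Ωc : ℝ) * (κ ^ 2 / (D * 2 ^ r)) = (Ωc / (D * 2 ^ r)) * κ ^ 2 := by ring
        rw [h3] at h2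
        have h4 := le_of_mul_le_mul_right h2 (by positivity)
        rw [le_div_iff₀ (by positivity)] at h4
        exact h4
      · intro ω
        have h1 := wN_ge (n := n) (k := k) ι hq0 j l hl s (ω.1 : Set (Clause n k))
        have h2 : ((eN ι s (ω.1 : Set (Clause n k)) : ℝ) / lam) ^ (2 * j) =
            ((eN ι s (ω.1 : Set (Clause n k)) : ℝ) / (4 * (q : ℝ) ^ 2)) ^ (2 * j) / T := by
          rw [hlam, hT, ← div_pow, div_div]
        change ((eN ι s (ω.1 : Set (Clause n k)) : ℝ) / lam) ^ (2 * j) ≤ _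
        rw [h2]
        exact div_le_div_of_nonneg_right h1 hT0.le
      · have h1 := sum_wN (Ω := Sub (Clause n k) m) ι
          (z := fun ω : Sub (Clause n k) m => (ω.1 : Set (Clause n k)))
          hq0 hρ0 hρ1 hσ hfew s j l hl τ hτ hτ1
        refine h1.trans (le_of_eq ?_)
        congr 1
        rw [← hB, hT, hη₂]
        have e1 : τ ^ (2 * j) * (1 / τ) = τ ^ (2 * j - 1) := by
          obtain ⟨j', rfl⟩ : ∃ j', j = j' + 1 := ⟨j - 1, by omega⟩
          rw [show 2 * (j' + 1) - 1 = 2 * j' + 1 by omega, show 2 * (j' + 1) = 2 * j' + 1 + 1 by ring,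
            pow_succ τ (2 * j' + 1)]
          field_simp
        have e2 : τ ^ (2 * j) * (1 / τ ^ j) = τ ^ j := by
          rw [two_mul, pow_add]
          field_simp
        calc τ ^ (2 * j) + B * (τ ^ (2 * j - 1) + 4 * (q : ℝ) ^ 2 * τ ^ j)
            = τ ^ (2 * j) + B * (τ ^ (2 * j) * (1 / τ) +
                4 * (q : ℝ) ^ 2 * (τ ^ (2 * j) * (1 / τ ^ j))) := by rw [e1, e2]
          _ = _ := by ring
      · have h1 := sum_eN (n := n) (k := k) ι hr m (by omega) (by rw [← hM]; exact hmM) s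
        rw [← hM, ← hΩc] at h1
        have h2 : (Ωc : ℝ) * (m * (m - 1 : ℕ)) * (q * (4 * q * (q - 1 : ℕ)) ^ 2) ≤
            (∑ ω : Sub (Clause n k) m, (eN ι s (ω.1 : Set (Clause n k)) : ℝ)) *
              (M * (M - 1 : ℕ)) := by
          exact_mod_cast h1
        have h3 := edge_num (q := q) (m := m) (M := M) (Ω := Ωc)
          (X := ∑ ω : Sub (Clause n k) m, (eN ι s (ω.1 : Set (Clause n k)) : ℝ)) (τ := τ) hq0
          (by omega) hmM (sum_nonneg fun ω _ => Nat.cast_nonneg _) (Nat.cast_nonneg _)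
          (by rw [hτ, hρ]) h2
        rw [← hΩc, hlam, hη₁]
        exact h3
    rw [Nat.card_eq_fintype_card, ncard_slice m fun F => ¬ Acc' C F, ← card_Sub]
    have hsub : ((univ.filter fun ω : Sub (Clause n k) m =>
        ¬ Acc' C (ω.1 : Set (Clause n k))).card : ℝ) ≤
        ∑ s : Fin r → Bool, ((univ.filter fun ω : Sub (Clause n k) m =>
        ¬ ((1 - κ) * lam ≤ (eN ι s (ω.1 : Set (Clause n k)) : ℝ) ∧
          (wN ι l s (ω.1 : Set (Clause n k)) : ℝ) <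
            (1 + (((2 * j : ℕ) : ℝ) + 1) * κ) * T)).card : ℝ) := by
      have h1 : (univ.filter fun ω : Sub (Clause n k) m =>
          ¬ Acc' C (ω.1 : Set (Clause n k))) ⊆
          (univ : Finset (Fin r → Bool)).biUnion fun s =>
            univ.filter fun ω : Sub (Clause n k) m =>
              ¬ ((1 - κ) * lam ≤ (eN ι s (ω.1 : Set (Clause n k)) : ℝ) ∧
                (wN ι l s (ω.1 : Set (Clause n k)) : ℝ) <
                  (1 + (((2 * j : ℕ) : ℝ) + 1) * κ) * T) := by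
        intro ω hω
        rw [mem_filter, hC3] at hω
        by_contra hcon
        apply hω.2
        intro s
        rw [mem_biUnion] at hcon
        push Not at hcon
        have h2 := hcon s (mem_univ _)
        rw [mem_filter] at h2
        push Not at h2
        obtain ⟨h3, h4⟩ := h2 (mem_univ _)
        rw [Nat.ceil_le, Nat.lt_ceil]
        exact ⟨h3, h4⟩
      have h2 := (card_le_card h1).trans card_biUnion_le
      exact_mod_cast h2
    have hcardS : (univ : Finset (Fin r → Bool)).card = 2 ^ r := by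
      rw [card_univ, Fintype.card_fun, Fintype.card_bool, Fintype.card_fin]
    obtain ⟨Bd, hBd⟩ : ∃ Bd : Finset (Sub (Clause n k) m),
      Bd = univ.filter fun ω : Sub (Clause n k) m => ¬ Acc' C (ω.1 : Set (Clause n k)) := ⟨_, rfl⟩
    rw [← hBd] at hsub
    have h1 : (Bd.card : ℝ) * (D * 2 ^ r) ≤ 2 ^ r * Ωc := by
      calc (Bd.card : ℝ) * (D * 2 ^ r) ≤ (∑ s : Fin r → Bool,
          ((univ.filter fun ω : Sub (Clause n k) m =>
            ¬ ((1 - κ) * lam ≤ (eN ι s (ω.1 : Set (Clause n k)) : ℝ) ∧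
              (wN ι l s (ω.1 : Set (Clause n k)) : ℝ) <
                (1 + (((2 * j : ℕ) : ℝ) + 1) * κ) * T)).card : ℝ)) * (D * 2 ^ r) :=
            mul_le_mul_of_nonneg_right hsub (by positivity)
        _ ≤ ∑ _s : Fin r → Bool, (Ωc : ℝ) := by
            rw [sum_mul]
            exact sum_le_sum fun s _ => hbad s
        _ = 2 ^ r * Ωc := by
            rw [sum_const, hcardS, nsmul_eq_mul]
            push_cast
            ring
    have h2 : (Bd.card : ℝ) * D ≤ Ωc := by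
      have h3 : (2 : ℝ) ^ r * ((Bd.card : ℝ) * D) ≤ 2 ^ r * Ωc := by
        refine le_trans (le_of_eq ?_) h1
        ring
      exact le_of_mul_le_mul_left h3 (by positivity)
    have h3 : Bd.card * D ≤ Fintype.card (Sub (Clause n k) m) := by
      rw [← hΩc]
      exact_mod_cast h2
    refine le_trans (Nat.mul_le_mul_right _ (le_of_eq ?_)) h3
    rw [hBd]
    exact card_filter_eq _ _ _ _ _ _ fun _ => Iff.rfl

end Pool.Agent.T9h16.Rand
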