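import Pool.Agent.T9h16.Rand4.Struct
import Pool.Agent.T9h16.Rand2.Gen

/-!
The expected number of closed walks.
-/

set_option autoImplicit false
set_option linter.unusedSectionVars false

namespace Pool.Agent.T9h16.Rand

open Finset
open scoped Classical

section weights
variable {Λ P : Type} [Fintype Λ] [Fintype P] [DecidableEq Λ] [DecidableEq P] {l : ℕ}

/-- The weight of one closed walk. -/
theorem weight_le (hΛ : 0 < Fintype.card Λ) {ρ : ℝ} (hρ0 : 0 ≤ ρ) (hρ1 : ρ ≤ 1)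
    (hσ : (Fintype.card Λ : ℝ) * ρ ≤ 1) (a : Fin (l + 1) → Λ) (v : Fin (l + 1) → P) :
    ρ ^ (univ.image (stp a v)).card * (Fintype.card Λ : ℝ) ^ (univ.image a).card ≤
      (if l + 1 < 2 * (univ.image v).card then 1 else (Fintype.card Λ : ℝ)) *
        ((Fintype.card Λ : ℝ) * ρ) ^ (univ.image v).card := by
  obtain ⟨N, hN⟩ : ∃ N : ℝ, N = Fintype.card Λ := ⟨_, rfl⟩
  obtain ⟨S, hS⟩ : ∃ S, S = (univ.image (stp a v)).card := ⟨_, rfl⟩
  obtain ⟨d, hd⟩ : ∃ d, d = (univ.image a).card := ⟨_, rfl⟩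
  obtain ⟨r, hr⟩ : ∃ r, r = (univ.image v).card := ⟨_, rfl⟩
  have hN1 : 1 ≤ N := by rw [hN]; exact_mod_cast hΛ
  have hN0 : 0 ≤ N := by linarith
  have h1 : r ≤ S := by rw [hr, hS]; exact pivots_le a v
  have h2 : d ≤ S + 1 := by rw [hd, hS]; exact cyc_card a v
  have h3 : l + 1 < 2 * S → d ≤ S := by rw [hd, hS]; exact cyc_card' a v
  rw [← hN, ← hS, ← hd, ← hr]
  rw [← hN] at hσ
  -- a general estimate
  have key : ∀ d' S', d' ≤ S' → r ≤ S' → ρ ^ S' * N ^ d' ≤ (N * ρ) ^ r := by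
    intro d' S' h4 h5
    rcases le_total d' r with h6 | h6
    · calc ρ ^ S' * N ^ d' ≤ ρ ^ r * N ^ r := by
            apply mul_le_mul (pow_le_pow_of_le_one hρ0 hρ1 h5) (pow_le_pow_right₀ hN1 h6)
              (by positivity) (by positivity)
        _ = (N * ρ) ^ r := by rw [mul_pow]; ring
    · calc ρ ^ S' * N ^ d' ≤ ρ ^ d' * N ^ d' :=
            mul_le_mul_of_nonneg_right (pow_le_pow_of_le_one hρ0 hρ1 h4) (by positivity)
        _ = (N * ρ) ^ d' := by rw [mul_pow]; ring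
        _ ≤ (N * ρ) ^ r := pow_le_pow_of_le_one (by positivity) hσ h6
  split_ifs with hc
  · rw [one_mul]
    exact key d S (h3 (by omega)) h1
  · rcases Nat.eq_zero_or_pos d with h0 | h0
    · have h4 := key 0 S (Nat.zero_le _) h1
      rw [h0]
      refine h4.trans ?_
      have : 0 ≤ (N * ρ) ^ r := by positivity
      nlinarith
    · have h4 := key (d - 1) S (by omega) h1
      have h5 : N ^ d = N * N ^ (d - 1) := by
        rw [← pow_succ']
        congr 1
        omega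
      rw [h5]
      calc ρ ^ S * (N * N ^ (d - 1)) = N * (ρ ^ S * N ^ (d - 1)) := by ring
        _ ≤ N * (N * ρ) ^ r := mul_le_mul_of_nonneg_left h4 hN0

/-- The sum of the weights of the closed walks with given pivots. -/
theorem sum_weight_le (hΛ : 0 < Fintype.card Λ) {ρ : ℝ} (hρ0 : 0 ≤ ρ) (hρ1 : ρ ≤ 1)
    (hσ : (Fintype.card Λ : ℝ) * ρ ≤ 1) (v : Fin (l + 1) → P) :
    ∑ a : Fin (l + 1) → Λ, ρ ^ (univ.image (stp a v)).card ≤
      (if l + 1 < 2 * (univ.image v).card then 1 else (Fintype.card Λ : ℝ)) *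
        ((Fintype.card Λ : ℝ) * ρ) ^ (univ.image v).card * ((l + 1 : ℕ) : ℝ) ^ (l + 2) := by
  have hN0 : (0 : ℝ) < Fintype.card Λ := by exact_mod_cast hΛ
  have hsum := sum_inv_image (I := Fin (l + 1)) hΛ
  rw [Fintype.card_fin] at hsum
  have h1 : ∀ a : Fin (l + 1) → Λ, ρ ^ (univ.image (stp a v)).card ≤
      ((if l + 1 < 2 * (univ.image v).card then 1 else (Fintype.card Λ : ℝ)) *
        ((Fintype.card Λ : ℝ) * ρ) ^ (univ.image v).card) *
        (1 / (Fintype.card Λ : ℝ)) ^ (univ.image a).card := by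
    intro a
    have h2 := weight_le hΛ hρ0 hρ1 hσ a v
    have h3 : (0 : ℝ) < (Fintype.card Λ : ℝ) ^ (univ.image a).card := by positivity
    rw [one_div, inv_pow, ← div_eq_mul_inv, le_div_iff₀ h3]
    exact h2
  refine (sum_le_sum fun a _ => h1 a).trans ?_
  rw [← mul_sum]
  apply mul_le_mul_of_nonneg_left
  · exact hsum
  · have : (0 : ℝ) ≤ (if l + 1 < 2 * (univ.image v).card then 1 else (Fintype.card Λ : ℝ)) := by
      split_ifs <;> positivity
    positivity

/-- The sum over the pivots of the squares. -/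
theorem sum_sq_weight_le (hΛ : 0 < Fintype.card Λ) (hP : 0 < Fintype.card P) {ρ : ℝ} (hρ0 : 0 ≤ ρ)
    (hρ1 : ρ ≤ 1) (hσ : (Fintype.card Λ : ℝ) * ρ ≤ 1) (j : ℕ) (hl : l + 1 = 2 * j) (τ : ℝ)
    (hτ : τ = (Fintype.card P : ℝ) * ((Fintype.card Λ : ℝ) * ρ) ^ 2) (hτ1 : 1 ≤ τ) :
    ∑ v : Fin (l + 1) → P, (∑ a : Fin (l + 1) → Λ, ρ ^ (univ.image (stp a v)).card) ^ 2 ≤
      τ ^ (2 * j) + ((2 * j : ℕ) : ℝ) ^ (6 * j + 3) * (τ ^ (2 * j - 1) +
        (Fintype.card Λ : ℝ) ^ 2 * τ ^ j) := by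
  obtain ⟨N, hN⟩ : ∃ N : ℝ, N = Fintype.card Λ := ⟨_, rfl⟩
  obtain ⟨q, hq⟩ : ∃ q : ℝ, q = Fintype.card P := ⟨_, rfl⟩
  have hN1 : 1 ≤ N := by rw [hN]; exact_mod_cast hΛ
  have hN0 : 0 < N := by linarith
  have hq0 : 0 < q := by rw [hq]; exact_mod_cast hP
  have hτ0 : 0 < τ := by linarith
  set T : (Fin (l + 1) → P) → ℝ := fun v =>
    ∑ a : Fin (l + 1) → Λ, ρ ^ (univ.image (stp a v)).card with hT
  have hT0 : ∀ v, 0 ≤ T v := fun v => sum_nonneg fun a _ => by positivity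
  obtain ⟨G, hG⟩ : ∃ G : ℝ, G = ((2 * j : ℕ) : ℝ) ^ (2 * j + 1) := ⟨_, rfl⟩
  have hG0 : 0 ≤ G := by rw [hG]; positivity
  -- all pivots different
  have h1 : ∀ v : Fin (l + 1) → P, (univ.image v).card = l + 1 → T v ^ 2 ≤
      (N * ρ) ^ (2 * (l + 1)) := by
    intro v hv
    have h2 : T v ≤ (N * ρ) ^ (l + 1) := by
      calc T v ≤ ∑ _a : Fin (l + 1) → Λ, ρ ^ (l + 1) := by
            apply sum_le_sum
            intro a _
            apply pow_le_pow_of_le_one hρ0 hρ1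
            exact hv.symm.le.trans (pivots_le a v)
        _ = (N * ρ) ^ (l + 1) := by
            rw [sum_const, card_univ, Fintype.card_fun, Fintype.card_fin, nsmul_eq_mul, mul_pow, hN]
            push_cast
            ring
    calc T v ^ 2 ≤ ((N * ρ) ^ (l + 1)) ^ 2 := pow_le_pow_left₀ (hT0 v) h2 2
      _ = _ := by rw [← pow_mul, mul_comm (l + 1) 2]
  -- the others
  have h2 : ∀ v : Fin (l + 1) → P, (univ.image v).card ≠ l + 1 → T v ^ 2 ≤
      (G ^ 2 * (τ ^ (2 * j - 1) + N ^ 2 * τ ^ j)) * (1 / q) ^ (univ.image v).card := by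
    intro v hv
    obtain ⟨r, hr⟩ : ∃ r, r = (univ.image v).card := ⟨_, rfl⟩
    have hrl : r ≤ l + 1 := by
      rw [hr]
      exact card_image_le.trans (by rw [card_univ, Fintype.card_fin])
    rw [← hr] at hv ⊢
    have h3 := sum_weight_le hΛ hρ0 hρ1 hσ v
    rw [← hN, ← hr] at h3
    change T v ≤ _ at h3
    have hGeq : ((l + 1 : ℕ) : ℝ) ^ (l + 2) = G := by
      rw [hG, hl, show l + 2 = 2 * j + 1 by omega]
    rw [hGeq] at h3
    have h4 := pow_le_pow_left₀ (hT0 v) h3 2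
    refine h4.trans ?_
    have h5 : (N * ρ) ^ (2 * r) = τ ^ r * (1 / q) ^ r := by
      rw [← mul_pow, pow_mul, hτ, ← hN, ← hq]
      congr 1
      field_simp
    have h6 : ((if l + 1 < 2 * r then 1 else N) * (N * ρ) ^ r * G) ^ 2 =
        (G ^ 2 * ((if l + 1 < 2 * r then 1 else N) ^ 2 * τ ^ r)) * (1 / q) ^ r := by
      have h7 : ((N * ρ) ^ r) ^ 2 = τ ^ r * (1 / q) ^ r := by
        rw [← h5, ← pow_mul, mul_comm r 2]
      calc _ = (if l + 1 < 2 * r then 1 else N) ^ 2 * ((N * ρ) ^ r) ^ 2 * G ^ 2 := by ring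
        _ = _ := by rw [h7]; ring
    rw [h6]
    apply mul_le_mul_of_nonneg_right _ (by positivity)
    apply mul_le_mul_of_nonneg_left _ (by positivity)
    have h8 : 0 ≤ τ ^ (2 * j - 1) := by positivity
    have h9 : 0 ≤ N ^ 2 * τ ^ j := by positivity
    split_ifs with hc
    · have h10 : τ ^ r ≤ τ ^ (2 * j - 1) := pow_le_pow_right₀ hτ1 (by omega)
      rw [one_pow, one_mul]
      linarith
    · have h10 : τ ^ r ≤ τ ^ j := pow_le_pow_right₀ hτ1 (by omega)
      have h11 : N ^ 2 * τ ^ r ≤ N ^ 2 * τ ^ j := mul_le_mul_of_nonneg_left h10 (by positivity)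
      linarith
  have h3 : ∀ v : Fin (l + 1) → P, T v ^ 2 ≤ (N * ρ) ^ (2 * (l + 1)) +
      (G ^ 2 * (τ ^ (2 * j - 1) + N ^ 2 * τ ^ j)) * (1 / q) ^ (univ.image v).card := by
    intro v
    have h4 : 0 ≤ (N * ρ) ^ (2 * (l + 1)) := by positivity
    have h5 : 0 ≤ (G ^ 2 * (τ ^ (2 * j - 1) + N ^ 2 * τ ^ j)) *
      (1 / q) ^ (univ.image v).card := by positivity
    by_cases hv : (univ.image v).card = l + 1
    · have := h1 v hv
      linarith
    · have := h2 v hv
      linarith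
  refine (sum_le_sum fun v _ => h3 v).trans ?_
  rw [sum_add_distrib, sum_const, card_univ, Fintype.card_fun, Fintype.card_fin, nsmul_eq_mul,
    ← mul_sum, ← hN]
  have hsum : ∑ v : Fin (l + 1) → P, (1 / q) ^ (univ.image v).card ≤ G := by
    have h4 := sum_inv_image (I := Fin (l + 1)) (Λ := P) hP
    rw [Fintype.card_fin] at h4
    have hGeq : ((l + 1 : ℕ) : ℝ) ^ (l + 1 + 1) = G := by
      rw [hG, hl]
    rw [hGeq] at h4
    rw [hq]
    exact h4
  have hmain : ((Fintype.card P ^ (l + 1) : ℕ) : ℝ) * (N * ρ) ^ (2 * (l + 1)) = τ ^ (2 * j) := by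
    have e1 : (N * ρ) ^ (2 * (l + 1)) = ((N * ρ) ^ 2) ^ (2 * j) := by rw [← pow_mul, hl]
    rw [e1, hτ, ← hN, hl]
    push_cast
    rw [← mul_pow]
  rw [hmain]
  have hG3 : ((2 * j : ℕ) : ℝ) ^ (6 * j + 3) = G ^ 2 * G := by
    rw [hG, ← pow_succ, ← pow_mul]
    congr 1
    ring
  rw [hG3]
  have h5 : 0 ≤ G ^ 2 * (τ ^ (2 * j - 1) + N ^ 2 * τ ^ j) := by positivity
  have h6 := mul_le_mul_of_nonneg_left hsum h5
  have h7 : G ^ 2 * G * (τ ^ (2 * j - 1) + N ^ 2 * τ ^ j) =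
      G ^ 2 * (τ ^ (2 * j - 1) + N ^ 2 * τ ^ j) * G := by ring
  rw [h7]
  linarith

end weights

section prob
variable {n q r k : ℕ} (ι : Fin q ⊕ (Fin q ⊕ Fin r) ↪ Fin n)
  {Ω : Type} [Fintype Ω] {z : Ω → Set (Clause n k)}

/-- The probability of a closed walk. -/
theorem prob_closed {ρ : ℝ} (hρ0 : 0 ≤ ρ) (hz : Few z ρ) (s : Fin r → Bool)
    {l : ℕ} (a a' : Fin (l + 1) → Fin q × Bool) (v : Fin (l + 1) → Fin q) :
    ((univ.filter fun ω : Ω => ∀ i, NE ι s (z ω) (a i) (a (i + 1)) (v i, true) ∧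
      NE ι s (z ω) (a' i) (a' (i + 1)) (v i, false)).card : ℝ) ≤
      Fintype.card Ω * (ρ ^ (univ.image (stp a v)).card * ρ ^ (univ.image (stp a' v)).card) := by
  have hX0 : (0 : ℝ) ≤ Fintype.card Ω := Nat.cast_nonneg _
  rw [← pow_add]
  -- the set of steps
  set S₁ : Finset (Sym2 (Fin q × Bool) × (Fin q × Bool)) :=
    (univ.image (stp a v)).image fun e => (e.1, (e.2, true)) with hS₁
  set S₂ : Finset (Sym2 (Fin q × Bool) × (Fin q × Bool)) :=
    (univ.image (stp a' v)).image fun e => (e.1, (e.2, false)) with hS₂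
  have hc1 : S₁.card = (univ.image (stp a v)).card := by
    rw [hS₁]
    apply card_image_of_injective
    intro e e' h
    simp only [Prod.mk.injEq] at h
    exact Prod.ext h.1 h.2.1
  have hc2 : S₂.card = (univ.image (stp a' v)).card := by
    rw [hS₂]
    apply card_image_of_injective
    intro e e' h
    simp only [Prod.mk.injEq] at h
    exact Prod.ext h.1 h.2.1
  have hdis : Disjoint S₁ S₂ := by
    rw [disjoint_left]
    intro e he he'
    rw [hS₁, mem_image] at he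
    rw [hS₂, mem_image] at he'
    obtain ⟨f, -, rfl⟩ := he
    obtain ⟨f', -, h⟩ := he'
    simp only [Prod.mk.injEq] at h
    exact Bool.noConfusion h.2.2
  have hcard : (S₁ ∪ S₂).card = (univ.image (stp a v)).card + (univ.image (stp a' v)).card := by
    rw [card_union_of_disjoint hdis, hc1, hc2]
  rw [← hcard]
  by_cases hex : ∀ e ∈ S₁ ∪ S₂, ∃ c : Clause n k, c.lits = litset ι s e
  · have hne : Nonempty (Clause n k) := by
      obtain ⟨c, -⟩ := hex _ (mem_union_left _ (mem_image_of_mem _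
        (mem_image_of_mem (stp a v) (mem_univ 0))))
      exact ⟨c⟩
    choose! cl hcl using hex
    have hinj : Set.InjOn cl (S₁ ∪ S₂ : Finset _) := by
      intro e he e' he' h
      apply litset_inj ι s
      rw [← hcl e (mem_coe.1 he), ← hcl e' (mem_coe.1 he'), h]
    rw [← card_image_of_injOn hinj]
    refine le_trans ?_ (hz ((S₁ ∪ S₂).image cl))
    have hsub : (univ.filter fun ω : Ω => ∀ i, NE ι s (z ω) (a i) (a (i + 1)) (v i, true) ∧
        NE ι s (z ω) (a' i) (a' (i + 1)) (v i, false)) ⊆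
        univ.filter fun ω : Ω => ∀ e ∈ (S₁ ∪ S₂).image cl, e ∈ z ω := by
      intro ω hω
      rw [mem_filter] at hω ⊢
      refine ⟨mem_univ _, fun c hc => ?_⟩
      rw [mem_image] at hc
      obtain ⟨e, he, rfl⟩ := hc
      have hlits := hcl e he
      rw [mem_union] at he
      rcases he with he | he
      · rw [hS₁, mem_image] at he
        obtain ⟨f, hf, rfl⟩ := he
        rw [mem_image] at hf
        obtain ⟨i, -, rfl⟩ := hf
        obtain ⟨c', hc', hl'⟩ := (hω.2 i).1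
        have : cl ((stp a v i).1, (stp a v i).2, true) = c' :=
          lits_injective (hlits.trans hl'.symm)
        rw [this]
        exact hc'
      · rw [hS₂, mem_image] at he
        obtain ⟨f, hf, rfl⟩ := he
        rw [mem_image] at hf
        obtain ⟨i, -, rfl⟩ := hf
        obtain ⟨c', hc', hl'⟩ := (hω.2 i).2
        have : cl ((stp a' v i).1, (stp a' v i).2, false) = c' :=
          lits_injective (hlits.trans hl'.symm)
        rw [this]
        exact hc'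
    exact_mod_cast card_le_card hsub
  · push Not at hex
    obtain ⟨e, he, hne⟩ := hex
    have h0 : (univ.filter fun ω : Ω => ∀ i, NE ι s (z ω) (a i) (a (i + 1)) (v i, true) ∧
        NE ι s (z ω) (a' i) (a' (i + 1)) (v i, false)) = ∅ := by
      rw [filter_eq_empty_iff]
      intro ω _ hω
      rw [mem_union] at he
      rcases he with he | he
      · rw [hS₁, mem_image] at he
        obtain ⟨f, hf, rfl⟩ := he
        rw [mem_image] at hf
        obtain ⟨i, -, rfl⟩ := hf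
        obtain ⟨c', hc', hl'⟩ := (hω i).1
        exact hne c' hl'
      · rw [hS₂, mem_image] at he
        obtain ⟨f, hf, rfl⟩ := he
        rw [mem_image] at hf
        obtain ⟨i, -, rfl⟩ := hf
        obtain ⟨c', hc', hl'⟩ := (hω i).2
        exact hne c' hl'
    rw [h0, card_empty, Nat.cast_zero]
    positivity

/-- The expected number of closed walks. -/
theorem sum_wN {ρ : ℝ} (hq : 0 < q) (hρ0 : 0 ≤ ρ) (hρ1 : ρ ≤ 1) (hσ : 2 * (q : ℝ) * ρ ≤ 1)
    (hz : Few z ρ) (s : Fin r → Bool) (j l : ℕ) (hl : l + 1 = 2 * j) (τ : ℝ)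
    (hτ : τ = 4 * (q : ℝ) ^ 3 * ρ ^ 2) (hτ1 : 1 ≤ τ) :
    (∑ ω : Ω, (wN ι l s (z ω) : ℝ)) ≤ Fintype.card Ω *
      (τ ^ (2 * j) + ((2 * j : ℕ) : ℝ) ^ (6 * j + 3) * (τ ^ (2 * j - 1) +
        4 * (q : ℝ) ^ 2 * τ ^ j)) := by
  have hX0 : (0 : ℝ) ≤ Fintype.card Ω := Nat.cast_nonneg _
  have hΛ : (Fintype.card (Fin q × Bool) : ℝ) = 2 * q := by
    rw [Fintype.card_prod, Fintype.card_fin, Fintype.card_bool]
    push_cast
    ring
  have h1 : ∑ ω : Ω, (wN ι l s (z ω) : ℝ) =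
      ∑ p : (Fin (l + 1) → (Fin q × Bool) × (Fin q × Bool)) × (Fin (l + 1) → Fin q),
      ((univ.filter fun ω : Ω => ∀ i, NE ι s (z ω) (p.1 i).1 (p.1 (i + 1)).1 (p.2 i, true) ∧
        NE ι s (z ω) (p.1 i).2 (p.1 (i + 1)).2 (p.2 i, false)).card : ℝ) := by
    unfold wN
    simp only [card_filter]
    push_cast
    exact sum_comm
  rw [h1]
  refine (sum_le_sum fun p _ => prob_closed ι hρ0 hz s (fun i => (p.1 i).1)
    (fun i => (p.1 i).2) p.2).trans ?_
  rw [← mul_sum]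
  apply mul_le_mul_of_nonneg_left _ hX0
  have h2 : (∑ p : (Fin (l + 1) → (Fin q × Bool) × (Fin q × Bool)) × (Fin (l + 1) → Fin q),
      (ρ ^ (univ.image (stp (fun i => (p.1 i).1) p.2)).card *
        ρ ^ (univ.image (stp (fun i => (p.1 i).2) p.2)).card)) =
      ∑ v : Fin (l + 1) → Fin q,
        (∑ a : Fin (l + 1) → Fin q × Bool, ρ ^ (univ.image (stp a v)).card) ^ 2 := by
    rw [Fintype.sum_prod_type, sum_comm]
    apply sum_congr rfl
    intro v _
    rw [sq, sum_mul_sum]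
    rw [← (Equiv.arrowProdEquivProdArrow (Fin (l + 1)) (fun _ => Fin q × Bool)
      (fun _ => Fin q × Bool)).symm.sum_comp, Fintype.sum_prod_type]
    rfl
  rw [h2]
  have h3 := sum_sq_weight_le (Λ := Fin q × Bool) (P := Fin q) (l := l) (by
      rw [Fintype.card_prod, Fintype.card_fin, Fintype.card_bool]
      omega) (by rw [Fintype.card_fin]; exact hq) hρ0 hρ1 (by rw [hΛ]; exact hσ) j hl τ
      (by
        rw [hΛ, hτ, Fintype.card_fin]
        ring) hτ1
  rw [hΛ] at h3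
  refine h3.trans (le_of_eq ?_)
  ring

end prob

end Pool.Agent.T9h16.Rand
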