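import Mathlib

/-!
Closed walks in symmetric graphs with a large independent set.
-/

set_option autoImplicit false
set_option linter.unusedSectionVars false

namespace Pool.Agent.T9h16.Rand

open Finset
open Matrix
open scoped Classical

section
variable {Z : Type} [Fintype Z] [DecidableEq Z]

theorem dot_symm {B : Matrix Z Z ℝ} (hB : B.IsSymm) (x y : Z → ℝ) :
    (B *ᵥ x) ⬝ᵥ y = x ⬝ᵥ (B *ᵥ y) := by
  rw [Matrix.dotProduct_mulVec, ← Matrix.mulVec_transpose, hB.eq]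

theorem dot_sq_le (x y : Z → ℝ) : (x ⬝ᵥ y) ^ 2 ≤ (x ⬝ᵥ x) * (y ⬝ᵥ y) := by
  have h := Finset.sum_mul_sq_le_sq_mul_sq (univ : Finset Z) x y
  simp only [dotProduct]
  simpa only [sq] using h

theorem dot_self_nonneg (x : Z → ℝ) : 0 ≤ x ⬝ᵥ x := by
  simp only [dotProduct]
  exact sum_nonneg fun z _ => mul_self_nonneg _

/-- The squared norm of `B ^ j v`. -/
noncomputable def nrm (B : Matrix Z Z ℝ) (v : Z → ℝ) (j : ℕ) : ℝ :=
  ((B ^ j) *ᵥ v) ⬝ᵥ ((B ^ j) *ᵥ v)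

theorem nrm_nonneg (B : Matrix Z Z ℝ) (v : Z → ℝ) (j : ℕ) : 0 ≤ nrm B v j := dot_self_nonneg _

theorem nrm_logconv {B : Matrix Z Z ℝ} (hB : B.IsSymm) (v : Z → ℝ) (j : ℕ) :
    nrm B v (j + 1) ^ 2 ≤ nrm B v j * nrm B v (j + 2) := by
  have h1 : ∀ i, (B ^ (i + 1)) *ᵥ v = B *ᵥ ((B ^ i) *ᵥ v) := by
    intro i
    rw [Matrix.mulVec_mulVec, ← pow_succ']
  have h2 : nrm B v (j + 1) = ((B ^ j) *ᵥ v) ⬝ᵥ ((B ^ (j + 2)) *ᵥ v) := by
    unfold nrm
    rw [h1 (j + 1), h1 j, dot_symm hB]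
  rw [h2]
  exact dot_sq_le _ _

theorem nrm_ratio {B : Matrix Z Z ℝ} (hB : B.IsSymm) (v : Z → ℝ) (j : ℕ) :
    nrm B v 1 * nrm B v j ≤ nrm B v 0 * nrm B v (j + 1) := by
  induction j with
  | zero => rw [mul_comm]
  | succ j ih =>
    rcases (nrm_nonneg B v (j + 1)).eq_or_lt with h0 | h0
    · rw [← h0, mul_zero]
      exact mul_nonneg (nrm_nonneg _ _ _) (nrm_nonneg _ _ _)
    · have h1 := nrm_logconv hB v j
      have h2 : 0 < nrm B v j := by
        rcases (nrm_nonneg B v j).eq_or_lt with h3 | h3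
        · rw [← h3, zero_mul] at h1
          nlinarith
        · exact h3
      have h3 : nrm B v j * (nrm B v 1 * nrm B v (j + 1)) ≤
          nrm B v j * (nrm B v 0 * nrm B v (j + 2)) := by
        calc nrm B v j * (nrm B v 1 * nrm B v (j + 1))
            = (nrm B v 1 * nrm B v j) * nrm B v (j + 1) := by ring
          _ ≤ (nrm B v 0 * nrm B v (j + 1)) * nrm B v (j + 1) :=
              mul_le_mul_of_nonneg_right ih h0.le
          _ = nrm B v 0 * nrm B v (j + 1) ^ 2 := by ring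
          _ ≤ nrm B v 0 * (nrm B v j * nrm B v (j + 2)) :=
              mul_le_mul_of_nonneg_left h1 (nrm_nonneg _ _ _)
          _ = _ := by ring
      exact le_of_mul_le_mul_left h3 h2

theorem nrm_pow {B : Matrix Z Z ℝ} (hB : B.IsSymm) (v : Z → ℝ) (hv : 0 < nrm B v 0) (j : ℕ) :
    (nrm B v 1 / nrm B v 0) ^ j ≤ nrm B v j / nrm B v 0 := by
  induction j with
  | zero => rw [pow_zero, div_self hv.ne']
  | succ j ih =>
    have h1 := nrm_ratio hB v j
    have h2 : nrm B v 1 / nrm B v 0 * (nrm B v j / nrm B v 0) ≤ nrm B v (j + 1) / nrm B v 0 := by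
      rw [div_mul_div_comm, div_le_div_iff₀ (by positivity) hv]
      calc nrm B v 1 * nrm B v j * nrm B v 0 ≤ nrm B v 0 * nrm B v (j + 1) * nrm B v 0 :=
            mul_le_mul_of_nonneg_right h1 hv.le
        _ = _ := by ring
    rw [pow_succ, mul_comm]
    exact (mul_le_mul_of_nonneg_left ih (div_nonneg (nrm_nonneg _ _ _) hv.le)).trans h2

/-- Bessel's inequality for the rows of a matrix. -/
theorem bessel (C : Matrix Z Z ℝ) (f : Z → ℝ) (hf : ∑ z, f z = 0) (S P : ℝ) (hS : 0 < S)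
    (hfS : ∑ z, f z ^ 2 = S) (hP : 0 < P) (hZP : (Fintype.card Z : ℝ) = P) :
    (C *ᵥ fun _ => 1) ⬝ᵥ (C *ᵥ fun _ => 1) / P + (C *ᵥ f) ⬝ᵥ (C *ᵥ f) / S ≤
      ∑ z, ∑ w, C z w ^ 2 := by
  have hrow : ∀ z, (∑ w, C z w) ^ 2 / P + (∑ w, C z w * f w) ^ 2 / S ≤ ∑ w, C z w ^ 2 := by
    intro z
    set X := ∑ w, C z w with hX
    set Y := ∑ w, C z w * f w with hY
    have key : 0 ≤ ∑ w, (C z w - X / P - Y / S * f w) ^ 2 := sum_nonneg fun w _ => sq_nonneg _
    have hexp : ∑ w, (C z w - X / P - Y / S * f w) ^ 2 =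
        (∑ w, C z w ^ 2) - 2 * (X / P) * (∑ w, C z w) - 2 * (Y / S) * (∑ w, C z w * f w)
          + (X / P) ^ 2 * (∑ _w : Z, (1 : ℝ)) + 2 * (X / P) * (Y / S) * (∑ w, f w)
          + (Y / S) ^ 2 * (∑ w, f w ^ 2) := by
      simp only [mul_sum, ← sum_add_distrib, ← sum_sub_distrib]
      apply sum_congr rfl
      intro w _
      ring
    rw [hexp, ← hX, ← hY, hf, hfS] at key
    simp only [sum_const, card_univ, nsmul_eq_mul, mul_one] at key
    rw [hZP] at key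
    have e1 : X ^ 2 / P = 2 * (X / P) * X - (X / P) ^ 2 * P := by
      field_simp
      ring
    have e2 : Y ^ 2 / S = 2 * (Y / S) * Y - (Y / S) ^ 2 * S := by
      field_simp
      ring
    rw [e1, e2]
    linarith
  have h1 : (C *ᵥ fun _ => 1) ⬝ᵥ (C *ᵥ fun _ => 1) = ∑ z, (∑ w, C z w) ^ 2 := by
    simp only [dotProduct, mulVec, mul_one, sq]
  have h2 : (C *ᵥ f) ⬝ᵥ (C *ᵥ f) = ∑ z, (∑ w, C z w * f w) ^ 2 := by
    simp only [dotProduct, mulVec, sq]
  rw [h1, h2, sum_div, sum_div, ← sum_add_distrib]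
  exact sum_le_sum fun z _ => hrow z

/-- The number of closed walks of length `2 j` is at least what it is in a regular graph, and more
if there is a large independent set. -/
theorem closed_gap {B : Matrix Z Z ℝ} (hB : B.IsSymm) (hB0 : ∀ z w, 0 ≤ B z w) (P : ℝ) (hP : 0 < P)
    (hZP : (Fintype.card Z : ℝ) = P) (Z₀ : Finset Z) (hZ₀ : (Z₀.card : ℝ) = P / 4)
    (hind : ∀ z ∈ Z₀, ∀ w ∈ Z₀, B z w = 0) (j : ℕ) (hj : 1 ≤ j) :
    ((∑ z, ∑ w, B z w) / P) ^ (2 * j) * (1 + (1 / 64) ^ j) ≤ ∑ z, ∑ w, (B ^ j) z w ^ 2 := by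
  set f : Z → ℝ := fun z => (if z ∈ Z₀ then 1 else 0) - 1 / 4 with hf
  have hf0 : ∑ z, f z = 0 := by
    simp only [hf]
    rw [sum_sub_distrib, sum_const, card_univ, nsmul_eq_mul, hZP, sum_ite_mem, univ_inter,
      sum_const, nsmul_eq_mul, mul_one, hZ₀]
    ring
  obtain ⟨S, hS⟩ : ∃ S : ℝ, S = ∑ z, f z ^ 2 := ⟨_, rfl⟩
  have hSeq : S = 3 * P / 16 := by
    have h1 : ∀ z, f z ^ 2 = (1 / 2) * (if z ∈ Z₀ then (1 : ℝ) else 0) + 1 / 16 := by
      intro z
      simp only [hf]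
      split_ifs <;> ring
    rw [hS, sum_congr rfl fun z _ => h1 z, sum_add_distrib, ← mul_sum, sum_const, card_univ,
      nsmul_eq_mul, hZP, sum_ite_mem, univ_inter, sum_const, nsmul_eq_mul, mul_one, hZ₀]
    ring
  have hS0 : 0 < S := by rw [hSeq]; positivity
  have hbes := bessel (B ^ j) f hf0 S P hS0 hS.symm hP hZP
  -- the norms
  have hs0 : nrm B (fun _ => 1) 0 = P := by
    unfold nrm
    rw [pow_zero, Matrix.one_mulVec]
    simp [dotProduct, hZP]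
  have ht0 : nrm B f 0 = S := by
    unfold nrm
    rw [pow_zero, Matrix.one_mulVec, hS]
    simp only [dotProduct, sq]
  have hs1 : nrm B (fun _ => 1) 1 = ∑ z, (∑ w, B z w) ^ 2 := by
    unfold nrm
    rw [pow_one]
    simp only [dotProduct, mulVec, mul_one, sq]
  have ht1 : nrm B f 1 = ∑ z, (∑ w, B z w * f w) ^ 2 := by
    unfold nrm
    rw [pow_one]
    simp only [dotProduct, mulVec, sq]
  have hsj := nrm_pow hB (fun _ => 1) (by rw [hs0]; exact hP) j
  have htj := nrm_pow hB f (by rw [ht0]; exact hS0) j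
  rw [hs0] at hsj
  rw [ht0] at htj
  have hmain : (nrm B (fun _ => 1) 1 / P) ^ j + (nrm B f 1 / S) ^ j ≤
      ∑ z, ∑ w, (B ^ j) z w ^ 2 := by
    refine le_trans (add_le_add hsj htj) ?_
    exact hbes
  refine le_trans ?_ hmain
  obtain ⟨e, he⟩ : ∃ e : ℝ, e = ∑ z, ∑ w, B z w := ⟨_, rfl⟩
  obtain ⟨A, hA⟩ : ∃ A : ℝ, A = nrm B (fun _ => 1) 1 := ⟨_, rfl⟩
  obtain ⟨T, hT⟩ : ∃ T : ℝ, T = ∑ z ∈ Z₀, ∑ w, B z w := ⟨_, rfl⟩
  obtain ⟨T2, hT2⟩ : ∃ T2 : ℝ, T2 = ∑ z ∈ Z₀, (∑ w, B z w) ^ 2 := ⟨_, rfl⟩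
  rw [← he, ← hA]
  have hBT : (1 / 16) * T2 ≤ nrm B f 1 := by
    rw [ht1, hT2, mul_sum]
    refine le_trans (le_of_eq ?_) (sum_le_sum_of_subset_of_nonneg (subset_univ Z₀)
      fun w _ _ => sq_nonneg _)
    apply sum_congr rfl
    intro z hz
    have h1 : ∑ w, B z w * f w = - (1 / 4) * ∑ w, B z w := by
      rw [mul_sum]
      apply sum_congr rfl
      intro w _
      simp only [hf]
      by_cases hw : w ∈ Z₀
      · rw [hind z hz w hw]
        ring
      · rw [if_neg hw]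
        ring
    rw [h1]
    ring
  have hTT : T ^ 2 ≤ (P / 4) * T2 := by
    have := sq_sum_le_card_mul_sum_sq (s := Z₀) (f := fun z => ∑ w, B z w)
    rw [← hT, ← hT2, hZ₀] at this
    exact this
  have hcompl : (e - T) ^ 2 ≤ (3 * P / 4) * A := by
    have h1 := sq_sum_le_card_mul_sum_sq (s := Z₀ᶜ) (f := fun z => ∑ w, B z w)
    have h2 : ∑ z ∈ Z₀ᶜ, ∑ w, B z w = e - T := by
      rw [he, hT, ← sum_compl_add_sum Z₀]
      ring
    have h3 : ∑ z ∈ Z₀ᶜ, (∑ w, B z w) ^ 2 ≤ A := by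
      rw [hA, hs1]
      exact sum_le_sum_of_subset_of_nonneg (subset_univ _) fun w _ _ => sq_nonneg _
    have h4 : ((Z₀ᶜ).card : ℝ) = 3 * P / 4 := by
      have h5 := card_compl_add_card Z₀
      have h6 : ((Z₀ᶜ).card : ℝ) + Z₀.card = Fintype.card Z := by exact_mod_cast h5
      rw [hZ₀, hZP] at h6
      linarith
    rw [h2, h4] at h1
    exact h1.trans (mul_le_mul_of_nonneg_left h3 (by positivity))
  have heA : e ^ 2 ≤ P * A := by
    have := sq_sum_le_card_mul_sum_sq (s := (univ : Finset Z)) (f := fun z => ∑ w, B z w)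
    rw [← he, ← hs1, ← hA, card_univ, hZP] at this
    exact this
  have he0 : 0 ≤ e := by
    rw [he]
    exact sum_nonneg fun z _ => sum_nonneg fun w _ => hB0 z w
  have hA0 : 0 ≤ A := hA ▸ nrm_nonneg _ _ _
  have hF0 : 0 ≤ nrm B f 1 := nrm_nonneg _ _ _
  have heP : (e / P) ^ (2 * j) = (e ^ 2 / P ^ 2) ^ j := by
    rw [pow_mul, div_pow]
  have hAP : e ^ 2 / P ^ 2 ≤ A / P := by
    rw [div_le_div_iff₀ (by positivity) hP]
    nlinarith
  rw [heP]
  rcases le_or_gt (e / 8) T with hcase | hcase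
  · have h1 : e ^ 2 / 16 ≤ P * T2 := by
      have h2 : (e / 8) ^ 2 ≤ T ^ 2 := pow_le_pow_left₀ (by positivity) hcase 2
      nlinarith
    have h3 : e ^ 2 / P ^ 2 * (1 / 64) ≤ nrm B f 1 / S := by
      have h4 : e ^ 2 / P ^ 2 * (1 / 64) ≤ ((1 / 16) * T2) / (P / 4) := by
        rw [div_mul_eq_mul_div, div_le_div_iff₀ (by positivity) (by positivity)]
        nlinarith
      refine h4.trans ?_
      apply div_le_div₀ hF0 hBT hS0
      rw [hSeq]
      linarith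
    have h5 : (e ^ 2 / P ^ 2 * (1 / 64)) ^ j ≤ (nrm B f 1 / S) ^ j :=
      pow_le_pow_left₀ (by positivity) h3 j
    have h6 : (e ^ 2 / P ^ 2) ^ j ≤ (A / P) ^ j := pow_le_pow_left₀ (by positivity) hAP j
    calc (e ^ 2 / P ^ 2) ^ j * (1 + (1 / 64) ^ j)
        = (e ^ 2 / P ^ 2) ^ j + (e ^ 2 / P ^ 2 * (1 / 64)) ^ j := by rw [mul_pow]; ring
      _ ≤ _ := add_le_add h6 h5
  · have h1 : e ^ 2 * (49 / 48) ≤ P * A := by
      have h2 : (7 * e / 8) ^ 2 ≤ (e - T) ^ 2 := by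
        apply pow_le_pow_left₀ (by positivity)
        linarith
      nlinarith
    have h3 : e ^ 2 / P ^ 2 * (49 / 48) ≤ A / P := by
      rw [div_mul_eq_mul_div, div_le_div_iff₀ (by positivity) hP]
      nlinarith
    have h5 : (e ^ 2 / P ^ 2 * (49 / 48)) ^ j ≤ (A / P) ^ j :=
      pow_le_pow_left₀ (by positivity) h3 j
    have h6 : (1 : ℝ) + (1 / 64) ^ j ≤ (49 / 48) ^ j := by
      have h7 : (1 / 64 : ℝ) ^ j ≤ 1 / 64 := by
        calc (1 / 64 : ℝ) ^ j ≤ (1 / 64) ^ 1 :=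
              pow_le_pow_of_le_one (by norm_num) (by norm_num) hj
          _ = _ := pow_one _
      have h8 : (49 / 48 : ℝ) ≤ (49 / 48) ^ j := by
        calc (49 / 48 : ℝ) = (49 / 48) ^ 1 := (pow_one _).symm
          _ ≤ _ := pow_le_pow_right₀ (by norm_num) hj
      linarith
    calc (e ^ 2 / P ^ 2) ^ j * (1 + (1 / 64) ^ j)
        ≤ (e ^ 2 / P ^ 2) ^ j * (49 / 48) ^ j := mul_le_mul_of_nonneg_left h6 (by positivity)
      _ = (e ^ 2 / P ^ 2 * (49 / 48)) ^ j := by rw [mul_pow]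
      _ ≤ (A / P) ^ j := h5
      _ ≤ _ := by
          have : 0 ≤ (nrm B f 1 / S) ^ j := by positivity
          linarith

/-- The number of closed walks of length `2 j` is at least what it is in a regular graph. -/
theorem closed_ge {B : Matrix Z Z ℝ} (hB : B.IsSymm) (hB0 : ∀ z w, 0 ≤ B z w) (P : ℝ) (hP : 0 < P)
    (hZP : (Fintype.card Z : ℝ) = P) (j : ℕ) :
    ((∑ z, ∑ w, B z w) / P) ^ (2 * j) ≤ ∑ z, ∑ w, (B ^ j) z w ^ 2 := by
  have hs0 : nrm B (fun _ => 1) 0 = P := by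
    unfold nrm
    rw [pow_zero, Matrix.one_mulVec]
    simp [dotProduct, hZP]
  have hs1 : nrm B (fun _ => 1) 1 = ∑ z, (∑ w, B z w) ^ 2 := by
    unfold nrm
    rw [pow_one]
    simp only [dotProduct, mulVec, mul_one, sq]
  have hsj := nrm_pow hB (fun _ => 1) (by rw [hs0]; exact hP) j
  rw [hs0] at hsj
  have h1 : nrm B (fun _ => 1) j / P ≤ ∑ z, ∑ w, (B ^ j) z w ^ 2 := by
    rw [div_le_iff₀ hP]
    have h2 : nrm B (fun _ => 1) j = ∑ z, (∑ w, (B ^ j) z w) ^ 2 := by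
      unfold nrm
      simp only [dotProduct, mulVec, mul_one, sq]
    rw [h2, sum_mul]
    apply sum_le_sum
    intro z _
    have := sq_sum_le_card_mul_sum_sq (s := (univ : Finset Z)) (f := fun w => (B ^ j) z w)
    rw [card_univ, hZP] at this
    linarith
  refine le_trans ?_ (hsj.trans h1)
  rw [pow_mul, div_pow]
  have heA : (∑ z, ∑ w, B z w) ^ 2 ≤ P * nrm B (fun _ => 1) 1 := by
    have := sq_sum_le_card_mul_sum_sq (s := (univ : Finset Z)) (f := fun z => ∑ w, B z w)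
    rw [← hs1, card_univ, hZP] at this
    exact this
  apply pow_le_pow_left₀ (by positivity)
  rw [div_le_div_iff₀ (by positivity) hP]
  nlinarith

end

end Pool.Agent.T9h16.Rand
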