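import Pool.Agent.T9h16.Rand4.Spec
import Pool.Agent.T9h16.Rand4.Cyc
import Pool.Agent.T9h16.Rand.Main

/-!
Resolvents of pairs of clauses as edges, and closed walks.
-/

set_option autoImplicit false
set_option linter.unusedSectionVars false

namespace Pool.Agent.T9h16.Rand

open Finset
open scoped Classical

section
variable {n q r : ℕ} (ι : Fin q ⊕ (Fin q ⊕ Fin r) ↪ Fin n)

/-- A pivot literal. -/
def plit (ℓ : Fin q × Bool) : Fin n × Bool := (ι (Sum.inl ℓ.1), ℓ.2)

/-- A side literal. -/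
def qlit (a : Fin q × Bool) : Fin n × Bool := (ι (Sum.inr (Sum.inl a.1)), a.2)

/-- A fixed literal. -/
def rlit (s : Fin r → Bool) (i : Fin r) : Fin n × Bool := (ι (Sum.inr (Sum.inr i)), s i)

/-- The literals of the clause for an edge and a pivot literal. -/
noncomputable def litset (s : Fin r → Bool) (e : Sym2 (Fin q × Bool) × (Fin q × Bool)) :
    Finset (Fin n × Bool) :=
  univ.filter fun l => (∃ a ∈ e.1, l = qlit ι a) ∨ l = plit ι e.2 ∨ ∃ i, l = rlit ι s i

theorem mem_litset {s : Fin r → Bool} {e : Sym2 (Fin q × Bool) × (Fin q × Bool)}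
    {l : Fin n × Bool} : l ∈ litset ι s e ↔
      (∃ a ∈ e.1, l = qlit ι a) ∨ l = plit ι e.2 ∨ ∃ i, l = rlit ι s i := by
  simp [litset]

theorem qlit_inj {a b : Fin q × Bool} (h : qlit ι a = qlit ι b) : a = b := by
  unfold qlit at h
  rw [Prod.mk.injEq] at h
  have h1 := Sum.inl.inj (Sum.inr.inj (ι.injective h.1))
  exact Prod.ext h1 h.2

theorem plit_inj {a b : Fin q × Bool} (h : plit ι a = plit ι b) : a = b := by
  unfold plit at h
  rw [Prod.mk.injEq] at h
  have h1 := Sum.inl.inj (ι.injective h.1)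
  exact Prod.ext h1 h.2

theorem qlit_ne_plit {a b : Fin q × Bool} : qlit ι a ≠ plit ι b := by
  intro h
  unfold qlit plit at h
  rw [Prod.mk.injEq] at h
  have h1 := ι.injective h.1
  exact absurd h1 (by simp)

theorem qlit_ne_rlit {a : Fin q × Bool} {s : Fin r → Bool} {i : Fin r} :
    qlit ι a ≠ rlit ι s i := by
  intro h
  unfold qlit rlit at h
  rw [Prod.mk.injEq] at h
  have h1 := ι.injective h.1
  exact absurd h1 (by simp)

theorem plit_ne_rlit {a : Fin q × Bool} {s : Fin r → Bool} {i : Fin r} :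
    plit ι a ≠ rlit ι s i := by
  intro h
  unfold plit rlit at h
  rw [Prod.mk.injEq] at h
  have h1 := ι.injective h.1
  exact absurd h1 (by simp)

theorem litset_inj (s : Fin r → Bool) : Function.Injective (litset ι s) := by
  rintro ⟨e, p⟩ ⟨e', p'⟩ h
  have hp : p = p' := by
    have h1 : plit ι p ∈ litset ι s (e', p') := by
      rw [← h, mem_litset]
      exact Or.inr (Or.inl rfl)
    rw [mem_litset] at h1
    rcases h1 with ⟨a, -, h2⟩ | h2 | ⟨i, h2⟩
    · exact absurd h2.symm (qlit_ne_plit ι)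
    · exact plit_inj ι h2
    · exact absurd h2 (plit_ne_rlit ι)
  subst hp
  have hsub : ∀ f f' : Sym2 (Fin q × Bool), litset ι s (f, p) = litset ι s (f', p) →
      ∀ a, a ∈ f → a ∈ f' := by
    intro f f' hff a ha
    have h1 : qlit ι a ∈ litset ι s (f', p) := by
      rw [← hff, mem_litset]
      exact Or.inl ⟨a, ha, rfl⟩
    rw [mem_litset] at h1
    rcases h1 with ⟨b, hb, h2⟩ | h2 | ⟨i, h2⟩
    · rw [qlit_inj ι h2]
      exact hb
    · exact absurd h2 (qlit_ne_plit ι)
    · exact absurd h2 (qlit_ne_rlit ι)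
  have he : e = e' := by
    apply Sym2.ext
    intro a
    exact ⟨hsub e e' h a, hsub e' e h.symm a⟩
  rw [he]

variable {k : ℕ}

/-- The clause for the side literals `a`, `b` and the pivot literal `ℓ` is in `F`. -/
def NE (s : Fin r → Bool) (F : Set (Clause n k)) (a b : Fin q × Bool) (ℓ : Fin q × Bool) : Prop :=
  ∃ c ∈ F, c.lits = litset ι s (s(a, b), ℓ)

theorem NE_comm (s : Fin r → Bool) (F : Set (Clause n k)) (a b : Fin q × Bool)
    (ℓ : Fin q × Bool) : NE ι s F a b ℓ ↔ NE ι s F b a ℓ := by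
  unfold NE
  rw [Sym2.eq_swap]

/-- The number of resolvents. -/
noncomputable def Bm (s : Fin r → Bool) (F : Set (Clause n k)) :
    Matrix ((Fin q × Bool) × (Fin q × Bool)) ((Fin q × Bool) × (Fin q × Bool)) ℝ :=
  fun z w => ∑ v : Fin q, if NE ι s F z.1 w.1 (v, true) ∧ NE ι s F z.2 w.2 (v, false)
    then 1 else 0

theorem Bm_symm (s : Fin r → Bool) (F : Set (Clause n k)) : (Bm ι s F).IsSymm := by
  apply Matrix.IsSymm.ext
  intro z w
  unfold Bm
  apply sum_congr rfl
  intro v _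
  rw [NE_comm ι s F w.1 z.1, NE_comm ι s F w.2 z.2]

theorem Bm_nonneg (s : Fin r → Bool) (F : Set (Clause n k)) (z w) : 0 ≤ Bm ι s F z w := by
  unfold Bm
  apply sum_nonneg
  intro v _
  split_ifs <;> norm_num

/-- The number of edges. -/
noncomputable def eN (s : Fin r → Bool) (F : Set (Clause n k)) : ℕ :=
  (univ.filter fun p : (((Fin q × Bool) × (Fin q × Bool)) ×
    ((Fin q × Bool) × (Fin q × Bool))) × Fin q =>
      NE ι s F p.1.1.1 p.1.2.1 (p.2, true) ∧ NE ι s F p.1.1.2 p.1.2.2 (p.2, false)).card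

/-- The number of closed walks. -/
noncomputable def wN (l : ℕ) (s : Fin r → Bool) (F : Set (Clause n k)) : ℕ :=
  (univ.filter fun p : (Fin (l + 1) → (Fin q × Bool) × (Fin q × Bool)) × (Fin (l + 1) → Fin q) =>
    ∀ i, NE ι s F (p.1 i).1 (p.1 (i + 1)).1 (p.2 i, true) ∧
      NE ι s F (p.1 i).2 (p.1 (i + 1)).2 (p.2 i, false)).card

theorem eN_eq (s : Fin r → Bool) (F : Set (Clause n k)) :
    (eN ι s F : ℝ) = ∑ z, ∑ w, Bm ι s F z w := by
  unfold eN Bm
  rw [card_filter]
  push_cast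
  rw [Fintype.sum_prod_type, Fintype.sum_prod_type]

theorem wN_eq (l : ℕ) (s : Fin r → Bool) (F : Set (Clause n k)) :
    (wN ι l s F : ℝ) = ∑ x : Fin (l + 1) → (Fin q × Bool) × (Fin q × Bool),
      ∏ i : Fin (l + 1), Bm ι s F (x i) (x (i + 1)) := by
  unfold wN Bm
  rw [card_filter]
  push_cast
  rw [Fintype.sum_prod_type]
  apply sum_congr rfl
  intro x _
  rw [Finset.prod_univ_sum, Fintype.piFinset_univ]
  apply sum_congr rfl
  intro v _
  rw [Finset.prod_ite_zero]
  simp only [mem_univ, true_implies, prod_const_one]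

theorem card_Z : (Fintype.card ((Fin q × Bool) × (Fin q × Bool)) : ℝ) = 4 * (q : ℝ) ^ 2 := by
  rw [Fintype.card_prod, Fintype.card_prod, Fintype.card_fin, Fintype.card_bool]
  push_cast
  ring

/-- The number of closed walks is at least what it is in a regular graph. -/
theorem wN_ge (hq : 0 < q) (j l : ℕ) (hl : l + 1 = 2 * j) (s : Fin r → Bool)
    (F : Set (Clause n k)) :
    ((eN ι s F : ℝ) / (4 * (q : ℝ) ^ 2)) ^ (2 * j) ≤ wN ι l s F := by
  have hq0 : (0 : ℝ) < q := by exact_mod_cast hq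
  rw [eN_eq, wN_eq, ← sq_walks (Bm_symm ι s F) j l hl]
  exact closed_ge (Bm_symm ι s F) (Bm_nonneg ι s F) _ (by positivity) card_Z j

/-- A satisfiable formula has more closed walks. -/
theorem wN_gap (hq : 0 < q) (j l : ℕ) (hj : 1 ≤ j) (hl : l + 1 = 2 * j) (F : Set (Clause n k))
    (hF : Satisfiable F) : ∃ s : Fin r → Bool,
    ((eN ι s F : ℝ) / (4 * (q : ℝ) ^ 2)) ^ (2 * j) * (1 + (1 / 64) ^ j) ≤ wN ι l s F := by
  have hq0 : (0 : ℝ) < q := by exact_mod_cast hq
  obtain ⟨y, hy⟩ := hF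
  refine ⟨fun i => !(y (ι (Sum.inr (Sum.inr i)))), ?_⟩
  set s : Fin r → Bool := fun i => !(y (ι (Sum.inr (Sum.inr i)))) with hs
  rw [eN_eq, wN_eq, ← sq_walks (Bm_symm ι s F) j l hl]
  set L₀ : Finset (Fin q × Bool) := univ.filter fun a => y (qlit ι a).1 ≠ a.2 with hL₀
  have hL₀card : L₀.card = q := by
    have h2 : L₀ = univ.image fun v : Fin q => (v, !(y (ι (Sum.inr (Sum.inl v))))) := by
      ext ⟨v, c⟩
      rw [hL₀, mem_filter, mem_image]
      simp only [qlit, mem_univ, true_and, Prod.mk.injEq]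
      constructor
      · intro h
        refine ⟨v, rfl, ?_⟩
        cases hx : y (ι (Sum.inr (Sum.inl v))) <;> cases c <;> simp_all
      · rintro ⟨v', rfl, rfl⟩
        cases y (ι (Sum.inr (Sum.inl v'))) <;> simp
    rw [h2, card_image_of_injective, card_univ, Fintype.card_fin]
    intro v v' h
    exact (Prod.mk.inj h).1
  refine closed_gap (Bm_symm ι s F) (Bm_nonneg ι s F) _ (by positivity) card_Z (L₀ ×ˢ L₀) ?_ ?_ j hj
  · rw [card_product, hL₀card]
    push_cast
    ring
  · rintro ⟨a, a'⟩ hz ⟨b, b'⟩ hw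
    rw [mem_product] at hz hw
    unfold Bm
    apply Finset.sum_eq_zero
    intro v _
    rw [if_neg]
    rintro ⟨⟨c, hc, hcl⟩, ⟨c', hc', hcl'⟩⟩
    simp only at hcl hcl'
    have hfalse : ∀ d ∈ L₀, y (qlit ι d).1 ≠ (qlit ι d).2 := by
      intro d hd
      rw [hL₀, mem_filter] at hd
      exact hd.2
    have hfix : ∀ i, y (rlit ι s i).1 ≠ (rlit ι s i).2 := by
      intro i
      simp only [rlit, hs]
      cases y (ι (Sum.inr (Sum.inr i))) <;> simp
    have h1 : y (ι (Sum.inl v)) = true := by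
      obtain ⟨l, hl, hyl⟩ := hy c hc
      rw [hcl, mem_litset] at hl
      rcases hl with ⟨d, hd, rfl⟩ | rfl | ⟨i, rfl⟩
      · rw [Sym2.mem_iff] at hd
        rcases hd with rfl | rfl
        · exact absurd hyl (hfalse _ hz.1)
        · exact absurd hyl (hfalse _ hw.1)
      · exact hyl
      · exact absurd hyl (hfix i)
    have h2 : y (ι (Sum.inl v)) = false := by
      obtain ⟨l, hl, hyl⟩ := hy c' hc'
      rw [hcl', mem_litset] at hl
      rcases hl with ⟨d, hd, rfl⟩ | rfl | ⟨i, rfl⟩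
      · rw [Sym2.mem_iff] at hd
        rcases hd with rfl | rfl
        · exact absurd hyl (hfalse _ hz.2)
        · exact absurd hyl (hfalse _ hw.2)
      · exact hyl
      · exact absurd hyl (hfix i)
    rw [h1] at h2
    exact Bool.noConfusion h2

end

end Pool.Agent.T9h16.Rand
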